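import Mathlib
import Pool.Agent.Work.MP_f3d170_co_h45.Defs

set_option autoImplicit false

open Set Matroid
open Pool.Agent.Work.MP_f3d170_co_h45

namespace Pool.Agent.Work.MP_f3d170_sp

/-- Sparse paving matroids of rank `r` with `n` elements: neither the matroid has a circuit with
fewer than `r` elements nor the dual matroid one with fewer than `n - r` elements. -/
def SparsePaving {n r : ℕ} (M : RankMatroid n r) : Prop :=
  (∀ C, M.1.IsCircuit C → r ≤ C.ncard) ∧ (∀ C, M.1✶.IsCircuit C → n - r ≤ C.ncard)

end Pool.Agent.Work.MP_f3d170_sp
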