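import Mathlib
import Pool.Agent.Work.MP_f3d170_sp.Defs
import Pool.Agent.Work.MP_f3d170_lin.Interface

/-!
# Bases versus circuits for sparse paving matroids (MP_f3d170_co)

For sparse paving matroids and large `r`: more bases than circuits if `n ≤ 2.11 r`, more circuits
than bases if `n ≥ 2.85 r`. Throughout `s = n - r`, `N = C(n,r)`, `p` = number of `r`-sets which
are not bases. These sets form a packing (two of them have at most `r - 2` common elements), and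
`(r+1) (c - b) = (s-r-1) N - (r+1) (s-2) p`.
-/

set_option autoImplicit false

open Set Matroid
open Pool.Agent.Work.MP_f3d170_co_h45
open Pool.Agent.Work.MP_f3d170_lin (IsPack Zp)

namespace Pool.Agent.Work.MP_f3d170_sp

open Classical in
/-- The `r`-sets which are not bases. -/
noncomputable def NB {n r : ℕ} (M : RankMatroid n r) : Finset (Finset (Fin n)) :=
  ((Finset.univ : Finset (Fin n)).powersetCard r).filter
    (fun X => ¬ M.1.IsBase (X : Set (Fin n)))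

/-! ## Structure -/

/-- SPA (`r = k + 2 < n`). Every `(r-1)`-set is independent and every `(n-r-1)`-set is independent
in the dual, i.e. every `(r+1)`-set spans. If `X ≠ Y` in `NB` had `r - 1` common elements, then
`X ∪ Y` would be in the closure of the independent set `X ∩ Y`, but it has `r + 1` elements.
Circuits have `r` or `r + 1` elements: the former are the members of `NB`, the latter are the
`(r+1)`-sets without a member of `NB`; every member of `NB` lies in `n - r` sets with `r + 1`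
elements, and no such set contains two of them. -/
def Stmt_SPA : Prop := ∀ (n k : ℕ) (M : RankMatroid n (k + 2)), k + 2 < n → SparsePaving M →
  IsPack k (NB M) ∧ numBases M.1 + (NB M).card = n.choose (k + 2) ∧
  numCircuits M.1 + (n - (k + 2)) * (NB M).card = n.choose (k + 3) + (NB M).card

/-- SPN. `exists_stable` (helper60b/Part.lean) and `SP`, `SP_isBase`, `SP_eRank`
(helper60/Lower.lean) as in `p_LOWER` (h78/B_LOWER.lean); these matroids are sparse paving: a set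
with `r - 1` elements lies in at least two `r`-sets, any two of them differ by one exchange, so one
is a basis; a set with `r + 1` elements contains a basis for the same reason. -/
def Stmt_SPN : Prop := ∀ (n k : ℕ), k + 2 < n →
  2 ^ (n.choose (k + 2) / n) ≤ Nat.card {M : RankMatroid n (k + 2) // SparsePaving M}

/-- PKB. A packing of `r`-sets (`r = k + 2`) has at most `N / (n - r + 1)` members: they contain
different `(r-1)`-sets, `r |P| ≤ C(n,r-1)` and `C(n,r-1) (n-r+1) = r C(n,r)`. -/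
def Stmt_PKB : Prop := ∀ (n k : ℕ) (P : Finset (Finset (Fin n))), k + 2 ≤ n →
  P ⊆ (Finset.univ : Finset (Fin n)).powersetCard (k + 2) → IsPack k P →
  P.card * (n - (k + 2) + 1) ≤ n.choose (k + 2)

/-! ## Generating function of the packings -/

/-- SHEARP. `Stmt_FINNER` of `Work/MP_f3d170_lin` (`p_FINNER p_HOL`) with `U` = the sets with
`g + k + 2` elements, `𝒢` = the `g`-sets, `R G X = (G ⊆ X)`, `μ = C(g+k+2,g)`,
`f G y = if IsPack (g + k) y then x ^ |y| else 0`. Every member of a packing contains `μ` sets `G`,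
so the product is `x ^ |P|`; `∑_y f G y ≤ Z` by `X ↦ X \ G` (from `{X | G ⊆ X, |X| = g+k+2}` to the
`(k+2)`-subsets of `D = Gᶜ`). -/
def Stmt_SHEARP : Prop := ∀ (n g k : ℕ) (x Z : ℝ), 0 < x → g + k + 2 ≤ n →
  (∀ D : Finset (Fin n), D.card = n - g → Zp k x (D.powersetCard (k + 2)) ≤ Z) →
  Zp (g + k) x ((Finset.univ : Finset (Fin n)).powersetCard (g + k + 2)) ≤
    Z ^ ((n.choose g : ℝ) / ((g + k + 2).choose g : ℝ))

/-- PRECX. As `p_PREC` (lin/B_PREC.lean), for all `x > 0`: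
`Zp A ≤ Zp (A - v) + x Zp (A - v - neighbours of v)` (use `p_DEG` of lin). -/
def Stmt_PRECX : Prop := ∀ (n k K₀ : ℕ) (x : ℝ) (D : Finset (Fin n)) (Φ : ℕ → ℝ), 0 < x →
  (∀ i, i ≤ K₀ → (1 + x) ^ i ≤ Φ i) →
  (∀ i d : ℕ, K₀ < i → i ≤ D.card.choose (k + 2) → d < i →
    ((k + 2 : ℕ) : ℝ) ^ 2 * i / (D.card.choose (k + 1) : ℝ) - ((k + 2 : ℕ) : ℝ) ≤ (d : ℝ) →
    Φ (i - 1) + x * Φ (i - 1 - d) ≤ Φ i) →
  Zp k x (D.powersetCard (k + 2)) ≤ Φ (D.card.choose (k + 2))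

/-- PHIAX. As `p_PHIA` (lin/B_PHIA.lean) with the factor `x` (now the second term is at most
`x R^(-2) ≤ κ/(2N)` or `x 2^(-κ) K/i ≤ κ/(2i)` times `Φ i`). -/
def Stmt_PHIAX : Prop := ∀ (x K κ R δ : ℝ) (N : ℕ), 0 < x → 1 ≤ κ → κ ≤ K → 1 < R →
  0 < δ → κ * (2 * Real.log 2) ≤ K * Real.log (1 + x) → 2 * K * Real.log R ≤ κ * δ →
  2 * x * (N : ℝ) ≤ κ * R ^ 2 → K ≤ N → 2 * x * K ≤ κ * 2 ^ κ →
  ∃ Φ : ℕ → ℝ, (∀ i : ℕ, (i : ℝ) ≤ K → (1 + x) ^ i ≤ Φ i) ∧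
    (∀ i d : ℕ, K < i → i ≤ N → d < i → δ * i / K ≤ d → Φ (i - 1) + x * Φ (i - 1 - d) ≤ Φ i) ∧
    Φ N ≤ (1 + x) ^ K * ((N : ℝ) / K) ^ κ

/-- PHIBX. As `p_PHIB` (lin/B_PHIB.lean), for `x ≤ 6` (so `log (1+x) ≤ 2`): `ε₁ = ε / 4`,
`K = (1+ε₁) N/(r+1)`, `δ = (k+2) ε₁`, `κ = 2 K log(r+1)/((k+2) ε₁)`. -/
def Stmt_PHIBX : Prop := ∀ (x ε : ℝ), 0 < x → x ≤ 6 → 0 < ε → ε ≤ 1 → ∃ k₁ : ℕ, ∀ k r : ℕ,
  k₁ ≤ k → (k + 2) ^ 4 ≤ r → r < (k + 3) ^ 4 → ∃ K κ δ : ℝ, 1 ≤ κ ∧ κ ≤ K ∧ 0 < δ ∧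
  κ * (2 * Real.log 2) ≤ K * Real.log (1 + x) ∧ 2 * K * Real.log ((r : ℝ) + 1) ≤ κ * δ ∧
  2 * x * (((r + k + 2).choose (k + 2) : ℕ) : ℝ) ≤ κ * ((r : ℝ) + 1) ^ 2 ∧
  K ≤ (((r + k + 2).choose (k + 2) : ℕ) : ℝ) ∧ 2 * x * K ≤ κ * 2 ^ κ ∧
  (∀ i : ℕ, K < i → δ * i / K ≤
    ((k + 2 : ℕ) : ℝ) ^ 2 * i / ((r + k + 2).choose (k + 1) : ℝ) - ((k + 2 : ℕ) : ℝ)) ∧
  (1 + x) ^ K * ((((r + k + 2).choose (k + 2) : ℕ) : ℝ) / K) ^ κ ≤
    Real.exp ((Real.log (1 + x) + ε) * (((r + k + 2).choose (k + 2) : ℕ) : ℝ) / ((r : ℝ) + 1))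

/-- SPK (uses PRECX, PHIAX, PHIBX; see lin/B_PHI.lean). -/
def Stmt_SPK : Prop := ∀ (x ε : ℝ), 0 < x → x ≤ 6 → 0 < ε → ε ≤ 1 → ∃ k₁ : ℕ, ∀ k r n : ℕ,
  k₁ ≤ k → (k + 2) ^ 4 ≤ r → r < (k + 3) ^ 4 → ∀ D : Finset (Fin n), D.card = r + k + 2 →
  Zp k x (D.powersetCard (k + 2)) ≤
    Real.exp ((Real.log (1 + x) + ε) * (((r + k + 2).choose (k + 2) : ℕ) : ℝ) / ((r : ℝ) + 1))

/-- GF (uses SPK, SHEARP). `n = (q+2) + s`, rank `r = q + 2`; `k + 2 = ⌊s^(1/4)⌋ ≤ r`,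
`g = r - (k+2)`, `C(n,g) C(s+k+2,k+2) = C(n,r) C(r,g)` (`Nat.choose_mul`). -/
def Stmt_GF : Prop := ∀ (x ε : ℝ), 0 < x → x ≤ 6 → 0 < ε → ε ≤ 1 → ∃ s₁ : ℕ, ∀ s q n : ℕ,
  s₁ ≤ s → n = (q + 2) + s → s ≤ 3 * (q + 2) →
  Zp q x ((Finset.univ : Finset (Fin n)).powersetCard (q + 2)) ≤
    Real.exp ((Real.log (1 + x) + ε) * (n.choose (q + 2) : ℝ) / ((s : ℝ) + 1))

/-! ## Few bad matroids -/

/-- CNT (uses SPA). The map `M ↦ NB M` is injective; Markov: `x ≤ 1` for few, `1 ≤ x` for many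
non-bases. -/
def Stmt_CNT : Prop := ∀ (n k : ℕ) (x : ℝ), k + 2 < n → 0 < x → ∀ P₀ : ℝ,
  (x ≤ 1 → ({M : RankMatroid n (k + 2) | SparsePaving M ∧ ((NB M).card : ℝ) ≤ P₀}.ncard : ℝ) ≤
    x ^ (-P₀) * Zp k x ((Finset.univ : Finset (Fin n)).powersetCard (k + 2))) ∧
  (1 ≤ x → ({M : RankMatroid n (k + 2) | SparsePaving M ∧ P₀ ≤ ((NB M).card : ℝ)}.ncard : ℝ) ≤
    x ^ (-P₀) * Zp k x ((Finset.univ : Finset (Fin n)).powersetCard (k + 2)))

/-- BLOW (uses SPA, CNT, GF with `x = 1/8`, `ε = 1/1000`). `n = 2 r + t`, `s = r + t`. A matroid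
with `b ≤ c` has `(r+1) (s-2) p ≤ (t-1) N`, so `p ≤ P₀ := (t-1) N / ((r+1) (s-2))`. With
`τ = t/r ≤ 0.11`: `(τ log 8 + log (9/8) + 0.002) (2+τ)/(1+τ) ≤ 0.667` (at `τ = 0.11` it is
`0.6587 + 0.004`); the expression increases with `τ`. -/
def Stmt_BLOW : Prop := ∃ r₁ : ℕ, ∀ q t n : ℕ, r₁ ≤ q → n = 2 * (q + 2) + t → 2 ≤ t →
  100 * t ≤ 11 * (q + 2) →
  ({M : RankMatroid n (q + 2) | SparsePaving M ∧ numBases M.1 ≤ numCircuits M.1}.ncard : ℝ) ≤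
    Real.exp (67 / 100 * (n.choose (q + 2) : ℝ) / (n : ℝ))

/-- BUP (uses SPA, CNT, GF with `x = 5`, `ε = 1/1000`). `n = 2 r + t`, `s = r + t`. A matroid with
`c ≤ b` has `(t-1) N ≤ (r+1) (s-2) p`, so `P₀ := (t-1) N / ((r+1) (s-2)) ≤ p`. With
`τ = t/r ≥ 0.85`: `(- τ log 5 + log 6 + 0.002) (2+τ)/(1+τ) ≤ 0.66` (at `τ = 0.85` it is
`0.6528 + 0.003`); the expression decreases with `τ`. -/
def Stmt_BUP : Prop := ∃ r₁ : ℕ, ∀ q t n : ℕ, r₁ ≤ q → n = 2 * (q + 2) + t →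
  85 * (q + 2) ≤ 100 * t → t ≤ (q + 2) + 1 →
  ({M : RankMatroid n (q + 2) | SparsePaving M ∧ numCircuits M.1 ≤ numBases M.1}.ncard : ℝ) ≤
    Real.exp (67 / 100 * (n.choose (q + 2) : ℝ) / (n : ℝ))

/-- NUMS. `67/100 < log 2`, `C(n,r) ≥ 2^r`, `n ≤ 4 r`. -/
def Stmt_NUMS : Prop := ∃ r₁ : ℕ, ∀ r n : ℕ, r₁ ≤ r → 2 * r ≤ n → n ≤ 4 * r → ∀ β : ℕ,
  (β : ℝ) ≤ Real.exp (67 / 100 * (n.choose r : ℝ) / (n : ℝ)) →
  (2 ^ n + 1) * β * n.factorial < 2 ^ (n.choose r / n)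

open Classical in
/-- FINS. `F`, `G` invariant under isomorphism (as are `numBases`, `numCircuits`), `F ≤ G + Λ` on
all sparse paving matroids. The members of `𝒩` which are sparse paving are at least
`Nat.card {M // SparsePaving M} / n!` (see `card_rankMatroid_le` in helper60/Assemble.lean;
`SparsePaving` is invariant under `Iso`); at most `β` of them have `G ≤ F`, and for the others
`F + 1 ≤ G`. -/
def Stmt_FINS : Prop := ∀ (n r : ℕ) (𝒩 : Finset (RankMatroid n r)), IsTransversal 𝒩 →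
  ∀ (F G : RankMatroid n r → ℕ) (β Λ : ℕ), (∀ M, F M ≤ G M + Λ) →
  {M : RankMatroid n r | SparsePaving M ∧ G M ≤ F M}.ncard ≤ β →
  (Λ + 1) * β * n.factorial < Nat.card {M : RankMatroid n r // SparsePaving M} →
  ∑ M ∈ 𝒩 with SparsePaving M, F M < ∑ M ∈ 𝒩 with SparsePaving M, G M

/-! ## The remaining ranges -/

open Classical in
/-- LOWR (uses SPA, SPN; `r ≥ 3`). `n ≤ 2 r + 1`. For `n = r` there is one matroid, with one basis
and no circuit. For `r < n ≤ 2 r` every sparse paving matroid has more bases than circuits by SPA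
(`(n-r) C(n,r) = (r+1) C(n,r+1)`; for `n = r + 1` use `p ≤ 1`, from `IsPack`), and there is one in
`𝒩` (SPN). For `n = 2 r + 1` `b - c = (r-1) p ≥ 0`, and by SPN there is a sparse paving matroid
with `p ≥ 1`, hence one in `𝒩` (`2^(C(n,r)/n) ≥ 2`, `NB` determines the matroid; `numBases` is
invariant under `Iso`). -/
def Stmt_LOWR : Prop := ∀ (n r : ℕ) (𝒩 : Finset (RankMatroid n r)), IsTransversal 𝒩 → 3 ≤ r →
  r ≤ n → n ≤ 2 * r + 1 →
  ∑ M ∈ 𝒩 with SparsePaving M, numCircuits M.1 < ∑ M ∈ 𝒩 with SparsePaving M, numBases M.1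

open Classical in
/-- UPR (uses SPA, SPN, PKB; `r ≥ 2`). `3 r + 2 ≤ n`. By PKB `(s+1) p ≤ N`, so
`(r+1) (s-2) p < (r+1) N ≤ (s-r-1) N` and `b < c` for every sparse paving matroid; there is one in
`𝒩` (SPN). -/
def Stmt_UPR : Prop := ∀ (n r : ℕ) (𝒩 : Finset (RankMatroid n r)), IsTransversal 𝒩 → 2 ≤ r →
  3 * r + 2 ≤ n →
  ∑ M ∈ 𝒩 with SparsePaving M, numBases M.1 < ∑ M ∈ 𝒩 with SparsePaving M, numCircuits M.1

end Pool.Agent.Work.MP_f3d170_sp
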