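import Mathlib
import Pool.Agent.Work.MP_f3d170_sp.Interface

/-! Assembly for the sparse paving case. -/

set_option autoImplicit false

open Set Matroid
open Pool.Agent.Work.MP_f3d170_co_h45

namespace Pool.Agent.Work.MP_f3d170_sp

lemma ncard_le_two_pow {n : ℕ} (S : Set (Set (Fin n))) : S.ncard ≤ 2 ^ n := by
  classical
  calc S.ncard ≤ (Set.univ : Set (Set (Fin n))).ncard :=
        Set.ncard_le_ncard (Set.subset_univ _) (Set.toFinite _)
    _ = 2 ^ n := by
        rw [Set.ncard_univ, Nat.card_eq_fintype_card, Fintype.card_set, Fintype.card_fin]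

open Classical in
/-- The theorem. -/
theorem final_main (hSPN : Stmt_SPN) (hBLOW : Stmt_BLOW) (hBUP : Stmt_BUP) (hNUMS : Stmt_NUMS)
    (hFINS : Stmt_FINS) (hLOWR : Stmt_LOWR) (hUPR : Stmt_UPR) :
    ∃ r₀ : ℕ, ∀ r n : ℕ, r₀ ≤ r → r ≤ n →
    ∀ 𝒩 : Finset (RankMatroid n r), IsTransversal 𝒩 →
      (100 * n ≤ 211 * r → ∑ M ∈ 𝒩 with SparsePaving M, numCircuits M.1 <
        ∑ M ∈ 𝒩 with SparsePaving M, numBases M.1) ∧
      (285 * r ≤ 100 * n → ∑ M ∈ 𝒩 with SparsePaving M, numBases M.1 <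
        ∑ M ∈ 𝒩 with SparsePaving M, numCircuits M.1) := by
  obtain ⟨r₁, h1⟩ := hBLOW
  obtain ⟨r₂, h2⟩ := hBUP
  obtain ⟨r₃, h3⟩ := hNUMS
  refine ⟨max (max (r₁ + 2) (r₂ + 2)) (max r₃ 10), fun r n hr hrn 𝒩 h𝒩 => ?_⟩
  have hr1 : r₁ + 2 ≤ r := le_trans (le_trans (le_max_left _ _) (le_max_left _ _)) hr
  have hr2 : r₂ + 2 ≤ r := le_trans (le_trans (le_max_right _ _) (le_max_left _ _)) hr
  have hr3 : r₃ ≤ r := le_trans (le_trans (le_max_left _ _) (le_max_right _ _)) hr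
  have hr4 : 10 ≤ r := le_trans (le_trans (le_max_right _ _) (le_max_right _ _)) hr
  obtain ⟨q, rfl⟩ : ∃ q, r = q + 2 := ⟨r - 2, by omega⟩
  constructor
  · intro hn
    rcases Nat.lt_or_ge n (2 * (q + 2) + 2) with hlt | hge
    · exact hLOWR n (q + 2) 𝒩 h𝒩 (by omega) hrn (by omega)
    · have hb := h1 q (n - 2 * (q + 2)) n (by omega) (by omega) (by omega) (by omega)
      refine hFINS n (q + 2) 𝒩 h𝒩 (fun M => numCircuits M.1) (fun M => numBases M.1) _ (2 ^ n)
        (fun M => ?_) le_rfl ?_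
      · exact le_trans (ncard_le_two_pow _) (Nat.le_add_left _ _)
      · exact lt_of_lt_of_le (h3 (q + 2) n hr3 (by omega) (by omega) _ hb)
          (hSPN n q (by omega))
  · intro hn
    rcases Nat.lt_or_ge n (3 * (q + 2) + 2) with hlt | hge
    · have hb := h2 q (n - 2 * (q + 2)) n (by omega) (by omega) (by omega) (by omega)
      refine hFINS n (q + 2) 𝒩 h𝒩 (fun M => numBases M.1) (fun M => numCircuits M.1) _ (2 ^ n)
        (fun M => ?_) le_rfl ?_
      · exact le_trans (ncard_le_two_pow _) (Nat.le_add_left _ _)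
      · exact lt_of_lt_of_le (h3 (q + 2) n hr3 (by omega) (by omega) _ hb)
          (hSPN n q (by omega))
    · exact hUPR n (q + 2) 𝒩 h𝒩 (by omega) hge

end Pool.Agent.Work.MP_f3d170_sp
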