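import Pool.Agent.Work.MP_f3d170_sp.Interface

set_option autoImplicit false

open Set Matroid
open Pool.Agent.Work.MP_f3d170_co_h45
open Pool.Agent.Work.MP_f3d170_lin (IsPack Zp)

namespace Pool.Agent.Work.MP_f3d170_sp

/-- `2 ^ 65 < 5 ^ 28`. -/
lemma BUP_log5 : 1609 / 1000 ≤ Real.log 5 := by
  have h : (65 : ℕ) * Real.log 2 ≤ (28 : ℕ) * Real.log 5 := by
    rw [← Real.log_pow, ← Real.log_pow]
    apply Real.log_le_log (by norm_num)
    norm_num
  have := Real.log_two_gt_d9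
  push_cast at h
  linarith

/-- `3 ^ 41 < 2 ^ 65`. -/
lemma BUP_log3 : Real.log 3 ≤ 65 / 41 * Real.log 2 := by
  have h : (41 : ℕ) * Real.log 3 ≤ (65 : ℕ) * Real.log 2 := by
    rw [← Real.log_pow, ← Real.log_pow]
    apply Real.log_le_log (by norm_num)
    norm_num
  push_cast at h
  linarith

lemma BUP_log6 : Real.log (1 + 5) ≤ 17921 / 10000 := by
  have h : (1 + 5 : ℝ) = 2 * 3 := by norm_num
  rw [h, Real.log_mul (by norm_num) (by norm_num)]
  have h1 := BUP_log3
  have h2 := Real.log_two_lt_d9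
  linarith

lemma BUP_num (R T : ℝ) (hR : 10000 ≤ R) (hT : 85 * R ≤ 100 * T) (hTR : T ≤ R + 1) :
    (17931 / 10000) / (R + T + 1) - (T - 1) / ((R + 1) * (R + T - 2)) * (1609 / 1000) ≤
      67 / 100 / (2 * R + T) := by
  have h1 : 0 < R + 1 := by linarith
  have h2 : 0 < R + T - 2 := by linarith
  have h3 : 0 < R + T + 1 := by linarith
  have h4 : 0 < 2 * R + T := by linarith
  obtain ⟨V, hV⟩ : ∃ V : ℝ, T = 85 / 100 * R + V := ⟨T - 85 / 100 * R, by ring⟩
  have hV0 : 0 ≤ V := by linarith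
  have hV1 : V ≤ 15 / 100 * R + 1 := by linarith
  rw [div_mul_eq_mul_div, div_sub_div _ _ (by positivity) (by positivity),
    div_le_div_iff₀ (by positivity) (by positivity)]
  have q1 : (2 * R + T) * (17931 / 10000 * (R + 1) - 1609 / 1000 * (T - 1)) ≤
      67 / 100 * R * (R + T) - 134 / 100 * R := by
    rw [hV]
    have a3 : R * 10000 ≤ R * R := mul_le_mul_of_nonneg_left hR (by linarith)
    have a4 : 0 ≤ R * V := mul_nonneg (by linarith) hV0
    have a5 : V * V ≤ V * (15 / 100 * R + 1) := mul_le_mul_of_nonneg_left hV1 hV0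
    nlinarith
  have q2 : 17931 / 10000 * ((R + 1) * (R + T - 2)) - (R + T + 1) * ((T - 1) * (1609 / 1000)) ≤
      (R + T) * (17931 / 10000 * (R + 1) - 1609 / 1000 * (T - 1)) := by
    nlinarith
  have q3 : (R + T) * (67 / 100 * R * (R + T) - 134 / 100 * R) ≤
      67 / 100 * ((R + T + 1) * ((R + 1) * (R + T - 2))) := by
    have hT0 : 0 ≤ T := by linarith
    nlinarith [mul_pos h1 h2, mul_pos (mul_pos h1 h2) h3, mul_nonneg (by linarith : (0:ℝ) ≤ R)
      hT0]
  calc (17931 / 10000 * ((R + 1) * (R + T - 2)) - (R + T + 1) * ((T - 1) * (1609 / 1000))) *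
        (2 * R + T)
      ≤ (R + T) * (17931 / 10000 * (R + 1) - 1609 / 1000 * (T - 1)) * (2 * R + T) :=
        mul_le_mul_of_nonneg_right q2 h4.le
    _ = (R + T) * ((2 * R + T) * (17931 / 10000 * (R + 1) - 1609 / 1000 * (T - 1))) := by ring
    _ ≤ (R + T) * (67 / 100 * R * (R + T) - 134 / 100 * R) :=
        mul_le_mul_of_nonneg_left q1 (by linarith)
    _ ≤ 67 / 100 * ((R + T + 1) * ((R + 1) * (R + T - 2))) := q3

theorem p_BUP (hSPA : Stmt_SPA) (hCNT : Stmt_CNT) (hGF : Stmt_GF) : Stmt_BUP := by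
  obtain ⟨s₁, hs₁⟩ := hGF 5 (1 / 1000) (by norm_num) (by norm_num) (by norm_num)
    (by norm_num)
  refine ⟨s₁ + 10000, ?_⟩
  intro q t n hq hn ht ht2
  have hfin : Finite (RankMatroid n (q + 2)) := Subtype.finite
  obtain ⟨N, hN⟩ : ∃ N : ℝ, N = (n.choose (q + 2) : ℝ) := ⟨_, rfl⟩
  have hN0 : 0 < N := by
    rw [hN]
    exact_mod_cast Nat.choose_pos (by omega)
  obtain ⟨R, hR⟩ : ∃ R : ℝ, R = (q : ℝ) + 2 := ⟨_, rfl⟩
  obtain ⟨T, hT⟩ : ∃ T : ℝ, T = (t : ℝ) := ⟨_, rfl⟩
  have hq' : (10000 : ℝ) ≤ R := by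
    rw [hR]
    have : (10000 : ℝ) ≤ (q : ℝ) := by exact_mod_cast (by omega : 10000 ≤ q)
    linarith
  have hT1 : 85 * R ≤ 100 * T := by
    rw [hT, hR]
    exact_mod_cast ht
  have hTR : T ≤ R + 1 := by
    rw [hT, hR]
    have : (t : ℝ) ≤ (q : ℝ) + 2 + 1 := by exact_mod_cast ht2
    linarith
  set P₀ : ℝ := (T - 1) * N / ((R + 1) * (R + T - 2)) with hP₀
  have hsub : {M : RankMatroid n (q + 2) | SparsePaving M ∧ numCircuits M.1 ≤ numBases M.1} ⊆
      {M : RankMatroid n (q + 2) | SparsePaving M ∧ P₀ ≤ ((NB M).card : ℝ)} := by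
    rintro M ⟨hM, hle⟩
    refine ⟨hM, ?_⟩
    obtain ⟨-, hb, hc⟩ := hSPA n q M (by omega) hM
    have hch : n.choose (q + 3) * (q + 3) = n.choose (q + 2) * (n - (q + 2)) :=
      Nat.choose_succ_right_eq n (q + 2)
    have hs' : n - (q + 2) = q + 2 + t := by omega
    rw [hs'] at hc hch
    have f1 : (numCircuits M.1 : ℝ) + (R + T) * (NB M).card = n.choose (q + 3) + (NB M).card := by
      rw [hR, hT]
      exact_mod_cast hc
    have f2 : (numBases M.1 : ℝ) + (NB M).card = N := by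
      rw [hN]
      exact_mod_cast hb
    have f3 : (n.choose (q + 3) : ℝ) * (R + 1) = N * (R + T) := by
      rw [hN, hR, hT]
      have : (n.choose (q + 3) : ℝ) * (q + 3) = n.choose (q + 2) * (q + 2 + t) := by
        exact_mod_cast hch
      linear_combination this
    have f4 : (numCircuits M.1 : ℝ) ≤ numBases M.1 := by exact_mod_cast hle
    show P₀ ≤ ((NB M).card : ℝ)
    rw [hP₀, div_le_iff₀ (by nlinarith)]
    have f5 : (R + 1) * (numCircuits M.1 : ℝ) ≤ (R + 1) * numBases M.1 :=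
      mul_le_mul_of_nonneg_left f4 (by linarith)
    have f6 : (R + 1) * (numCircuits M.1 : ℝ) + (R + 1) * (R + T) * (NB M).card =
        N * (R + T) + (R + 1) * (NB M).card := by
      linear_combination (R + 1) * f1 + f3
    have f7 : (R + 1) * (numBases M.1 : ℝ) + (R + 1) * (NB M).card = (R + 1) * N := by
      linear_combination (R + 1) * f2
    nlinarith
  have h1 : ({M : RankMatroid n (q + 2) | SparsePaving M ∧
      numCircuits M.1 ≤ numBases M.1}.ncard : ℝ) ≤
      ({M : RankMatroid n (q + 2) | SparsePaving M ∧ P₀ ≤ ((NB M).card : ℝ)}.ncard : ℝ) := by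
    exact_mod_cast Set.ncard_le_ncard hsub (Set.toFinite _)
  have h2 := (hCNT n q 5 (by omega) (by norm_num) P₀).2 (by norm_num)
  have h3 := hs₁ (q + 2 + t) q n (by omega) (by omega) (by omega)
  refine (h1.trans h2).trans ?_
  have h4 : (5 : ℝ) ^ (-P₀) = Real.exp (-(P₀ * Real.log 5)) := by
    rw [Real.rpow_def_of_pos (by norm_num)]
    congr 1
    ring
  rw [h4]
  refine (mul_le_mul_of_nonneg_left h3 (Real.exp_nonneg _)).trans ?_
  rw [← Real.exp_add]
  apply Real.exp_le_exp.2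
  have hP0 : 0 ≤ P₀ := by
    rw [hP₀]
    apply div_nonneg (mul_nonneg (by linarith) hN0.le)
    nlinarith
  have h5 : -(P₀ * Real.log 5) ≤ -(P₀ * (1609 / 1000)) :=
    neg_le_neg (mul_le_mul_of_nonneg_left BUP_log5 hP0)
  have h6 : (Real.log (1 + 5) + 1 / 1000) * (n.choose (q + 2) : ℝ) /
      (((q + 2 + t : ℕ) : ℝ) + 1) ≤ (17931 / 10000) * N / (R + T + 1) := by
    rw [← hN, hR, hT]
    push_cast
    apply div_le_div_of_nonneg_right _ (by positivity)
    apply mul_le_mul_of_nonneg_right _ hN0.le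
    have := BUP_log6
    linarith
  have h7 : (n : ℝ) = 2 * R + T := by
    rw [hn, hR, hT]
    push_cast
    ring
  rw [← hN] at h6 ⊢
  rw [h7]
  refine (add_le_add h5 h6).trans ?_
  have h8 := mul_le_mul_of_nonneg_left (BUP_num R T hq' hT1 hTR) hN0.le
  calc -(P₀ * (1609 / 1000)) + 17931 / 10000 * N / (R + T + 1)
      = N * ((17931 / 10000) / (R + T + 1) - (T - 1) / ((R + 1) * (R + T - 2)) *
          (1609 / 1000)) := by
        rw [hP₀]
        ring
    _ ≤ _ := h8
    _ = 67 / 100 * N / (2 * R + T) := by ring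

end Pool.Agent.Work.MP_f3d170_sp
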