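import Pool.Agent.Work.MP_f3d170_sp.Interface

set_option autoImplicit false

open Set Matroid
open Pool.Agent.Work.MP_f3d170_co_h45
open Pool.Agent.Work.MP_f3d170_lin (IsPack Zp)

namespace Pool.Agent.Work.MP_f3d170_sp

lemma CNT_isBase {n r : ℕ} (M : RankMatroid n r) (X : Finset (Fin n)) :
    M.1.IsBase (X : Set (Fin n)) ↔
      X ∈ (Finset.univ : Finset (Fin n)).powersetCard r ∧ X ∉ NB M := by
  classical
  unfold NB
  rw [Finset.mem_filter, Finset.mem_powersetCard]
  constructor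
  · intro h
    have h1 : (X : Set (Fin n)).encard = M.1.eRank := h.encard_eq_eRank
    rw [M.2.2, Set.encard_coe_eq_coe_finsetCard] at h1
    have h2 : X.card = r := by exact_mod_cast h1
    exact ⟨⟨Finset.subset_univ _, h2⟩, fun h' => h'.2 h⟩
  · rintro ⟨h1, h2⟩
    by_contra h3
    exact h2 ⟨h1, h3⟩

lemma CNT_inj {n r : ℕ} : Function.Injective (NB : RankMatroid n r → Finset (Finset (Fin n))) := by
  classical
  intro M M' h
  apply Subtype.ext
  refine Matroid.ext_isBase (by rw [M.2.1, M'.2.1]) ?_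
  intro B _
  have h1 := CNT_isBase M B.toFinset
  have h2 := CNT_isBase M' B.toFinset
  rw [Set.coe_toFinset] at h1 h2
  rw [h1, h2, h]

lemma CNT_sub {n r : ℕ} (M : RankMatroid n r) :
    NB M ⊆ (Finset.univ : Finset (Fin n)).powersetCard r := by
  classical
  unfold NB
  exact Finset.filter_subset _ _

open Classical in
lemma CNT_main (hSPA : Stmt_SPA) (n k : ℕ) (x : ℝ) (hk : k + 2 < n) (hx : 0 < x) (P₀ : ℝ)
    (c : ℕ → Prop) (hc : ∀ m, c m → 1 ≤ x ^ (-P₀) * x ^ m) :
    ({M : RankMatroid n (k + 2) | SparsePaving M ∧ c (NB M).card}.ncard : ℝ) ≤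
      x ^ (-P₀) * Zp k x ((Finset.univ : Finset (Fin n)).powersetCard (k + 2)) := by
  set U := (Finset.univ : Finset (Fin n)).powersetCard (k + 2) with hU
  set T := U.powerset.filter (fun P => IsPack k P ∧ c P.card) with hT
  have h1 : {M : RankMatroid n (k + 2) | SparsePaving M ∧ c (NB M).card}.ncard ≤ T.card := by
    rw [← Set.ncard_image_of_injective _ CNT_inj, ← Set.ncard_coe_finset]
    apply Set.ncard_le_ncard _ (Finset.finite_toSet _)
    rintro _ ⟨M, ⟨hM, hcM⟩, rfl⟩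
    rw [Finset.mem_coe, hT, Finset.mem_filter, Finset.mem_powerset]
    exact ⟨CNT_sub M, (hSPA n k M hk hM).1, hcM⟩
  have h2 : (T.card : ℝ) ≤ ∑ P ∈ T, x ^ (-P₀) * x ^ P.card := by
    calc (T.card : ℝ) = ∑ _P ∈ T, (1 : ℝ) := by rw [Finset.sum_const, nsmul_eq_mul, mul_one]
      _ ≤ _ := Finset.sum_le_sum fun P hP => hc _ (Finset.mem_filter.1 hP).2.2
  have h3 : ∑ P ∈ T, x ^ (-P₀) * x ^ P.card ≤ x ^ (-P₀) * Zp k x U := by
    rw [← Finset.mul_sum]
    apply mul_le_mul_of_nonneg_left _ (Real.rpow_nonneg hx.le _)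
    unfold Zp
    apply Finset.sum_le_sum_of_subset_of_nonneg
    · intro P hP
      rw [hT, Finset.mem_filter] at hP
      exact Finset.mem_filter.2 ⟨hP.1, hP.2.1⟩
    · intro P _ _
      positivity
  calc ({M : RankMatroid n (k + 2) | SparsePaving M ∧ c (NB M).card}.ncard : ℝ)
      ≤ (T.card : ℝ) := by exact_mod_cast h1
    _ ≤ _ := h2.trans h3

theorem p_CNT (hSPA : Stmt_SPA) : Stmt_CNT := by
  intro n k x hk hx P₀
  constructor
  · intro hx1
    refine CNT_main hSPA n k x hk hx P₀ (fun m => (m : ℝ) ≤ P₀) ?_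
    intro m hm
    rw [← Real.rpow_natCast x m, ← Real.rpow_add hx]
    exact Real.one_le_rpow_of_pos_of_le_one_of_nonpos hx hx1 (by linarith)
  · intro hx1
    refine CNT_main hSPA n k x hk hx P₀ (fun m => P₀ ≤ (m : ℝ)) ?_
    intro m hm
    rw [← Real.rpow_natCast x m, ← Real.rpow_add hx]
    exact Real.one_le_rpow hx1 (by linarith)

end Pool.Agent.Work.MP_f3d170_sp
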