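import Pool.Agent.Work.MP_f3d170_sp.Interface
import Pool.Agent.Work.MP_f3d170_co_helper60.Assemble

set_option autoImplicit false

open Set Matroid
open Pool.Agent.Work.MP_f3d170_co_h45

namespace Pool.Agent.Work.MP_f3d170_sp

lemma iso_isCircuit {n : ℕ} {M N : Matroid (Fin n)} (_ : M.E = Set.univ) (hN : N.E = Set.univ)
    (σ : Equiv.Perm (Fin n)) (h : ∀ I : Set (Fin n), M.Indep I ↔ N.Indep (σ '' I))
    {C : Set (Fin n)} (hC : M.IsCircuit C) : N.IsCircuit (σ '' C) := by
  rw [isCircuit_iff_dep_forall_sdiff_singleton_indep] at hC ⊢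
  obtain ⟨hd, hi⟩ := hC
  refine ⟨⟨fun hn => hd.1 ((h C).2 hn), by rw [hN]; exact Set.subset_univ _⟩, ?_⟩
  rintro _ ⟨e, he, rfl⟩
  have h1 := (h _).1 (hi e he)
  rwa [Set.image_sdiff σ.injective, Set.image_singleton] at h1

lemma iso_circ_ncard {n k : ℕ} {M N : Matroid (Fin n)} (hM : M.E = Set.univ)
    (hN : N.E = Set.univ) (h : Iso M N) (h1 : ∀ C, M.IsCircuit C → k ≤ C.ncard) :
    ∀ C, N.IsCircuit C → k ≤ C.ncard := by
  obtain ⟨σ, hσ⟩ := h.symm
  intro C hC
  have h2 := h1 _ (iso_isCircuit hN hM σ hσ hC)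
  rwa [Set.ncard_image_of_injective _ σ.injective] at h2

lemma SparsePaving.of_iso {n r : ℕ} {M N : RankMatroid n r} (h : Iso M.1 N.1)
    (hM : SparsePaving M) : SparsePaving N :=
  ⟨iso_circ_ncard M.2.1 N.2.1 h hM.1,
    iso_circ_ncard (M := M.1✶) (N := N.1✶) M.2.1 N.2.1 (h.dual M.2.1 N.2.1) hM.2⟩

open Classical in
lemma card_sp_le {n r : ℕ} {𝒩 : Finset (RankMatroid n r)} (h : IsTransversal 𝒩) :
    Nat.card {M : RankMatroid n r // SparsePaving M} ≤
      (𝒩.filter SparsePaving).card * n.factorial := by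
  have hex : ∀ M : {M : RankMatroid n r // SparsePaving M},
      ∃ N : {N // N ∈ 𝒩.filter SparsePaving}, ∃ σ : Equiv.Perm (Fin n),
      ∀ I : Set (Fin n), M.1.1.Indep I ↔ N.1.1.Indep (σ '' I) := by
    intro M
    obtain ⟨N, ⟨hN, hi⟩, -⟩ := h M.1
    have hsp := SparsePaving.of_iso hi M.2
    obtain ⟨σ, hσ⟩ := hi
    exact ⟨⟨N, Finset.mem_filter.2 ⟨hN, hsp⟩⟩, σ, hσ⟩
  choose F σ hσ using hex
  have hinj : Function.Injective (fun M => (F M, σ M)) := by
    intro M M' hMM
    simp only [Prod.mk.injEq] at hMM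
    apply Subtype.ext
    apply Subtype.ext
    refine Matroid.ext_indep (by rw [M.1.2.1, M'.1.2.1]) ?_
    intro I _
    rw [hσ M I, hσ M' I, hMM.1, hMM.2]
  have h1 := Nat.card_le_card_of_injective _ hinj
  have h2 : Nat.card {N // N ∈ 𝒩.filter SparsePaving} = (𝒩.filter SparsePaving).card := by
    rw [Nat.card_eq_fintype_card, Fintype.card_coe]
  have h3 : Nat.card (Equiv.Perm (Fin n)) = n.factorial := by
    rw [Nat.card_eq_fintype_card, Fintype.card_perm, Fintype.card_fin]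
  rw [Nat.card_prod, h2, h3] at h1
  exact h1

theorem p_FINS : Stmt_FINS := by
  classical
  intro n r 𝒩 h𝒩 F G β Λ hFG hbad hβ
  set S := 𝒩.filter SparsePaving with hS
  have hc : Nat.card {M : RankMatroid n r // SparsePaving M} ≤ S.card * n.factorial :=
    card_sp_le h𝒩
  have h1 : (Λ + 1) * β < S.card := by
    have h2 : (Λ + 1) * β * n.factorial < S.card * n.factorial := lt_of_lt_of_le hβ hc
    exact Nat.lt_of_mul_lt_mul_right h2
  have hpt : ∀ M : RankMatroid n r, F M + 1 ≤ G M + (if G M ≤ F M then Λ + 1 else 0) := by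
    intro M
    have := hFG M
    split_ifs with h
    · omega
    · omega
  have hsum := Finset.sum_le_sum (s := S) fun M _ => hpt M
  rw [Finset.sum_add_distrib, Finset.sum_add_distrib, ← Finset.sum_filter] at hsum
  have hB : ∑ M ∈ S with G M ≤ F M, (Λ + 1) ≤ (Λ + 1) * β := by
    rw [Finset.sum_const, smul_eq_mul, mul_comm]
    refine Nat.mul_le_mul_left _ ?_
    refine le_trans ?_ hbad
    rw [← Set.ncard_coe_finset]
    refine Set.ncard_le_ncard ?_ (Set.toFinite _)
    intro M hM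
    rw [Finset.mem_coe, Finset.mem_filter, hS, Finset.mem_filter] at hM
    exact ⟨hM.1.2, hM.2⟩
  rw [Finset.sum_const, smul_eq_mul, mul_one] at hsum
  omega

end Pool.Agent.Work.MP_f3d170_sp
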