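import Pool.Agent.Work.MP_f3d170_sp.Interface

set_option autoImplicit false

open Set Matroid
open Pool.Agent.Work.MP_f3d170_co_h45
open Pool.Agent.Work.MP_f3d170_lin (IsPack Zp)

namespace Pool.Agent.Work.MP_f3d170_sp

theorem p_GF (hSPK : Stmt_SPK) (hSH : Stmt_SHEARP) : Stmt_GF := by
  intro x ε hx hx6 hε hε1
  obtain ⟨k₁, h⟩ := hSPK x ε hx hx6 hε hε1
  refine ⟨(k₁ + 3) ^ 4 + 16, ?_⟩
  intro s q n hs hn hsq
  obtain ⟨m, hm1, hm2⟩ : ∃ m, m ^ 4 ≤ s ∧ s < (m + 1) ^ 4 := by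
    have hex : ∃ m, s < (m + 1) ^ 4 := by
      refine ⟨s, ?_⟩
      calc s < s + 1 := Nat.lt_succ_self s
        _ ≤ (s + 1) ^ 4 := Nat.le_self_pow (by norm_num) _
    classical
    have h1 := Nat.find_spec hex
    refine ⟨Nat.find hex, ?_, h1⟩
    by_contra hlt
    push Not at hlt
    rcases Nat.eq_zero_or_pos (Nat.find hex) with h0 | hpos
    · rw [h0] at hlt
      simp at hlt
    · have h2 := Nat.find_min hex (m := Nat.find hex - 1) (by omega)
      apply h2
      have e : Nat.find hex - 1 + 1 = Nat.find hex := by omega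
      rw [e]
      exact hlt
  have hmk : k₁ + 3 ≤ m := by
    have h1 : (k₁ + 3) ^ 4 < (m + 1) ^ 4 := by omega
    have h2 := lt_of_pow_lt_pow_left₀ 4 (Nat.zero_le _) h1
    omega
  have hmq : m ≤ q + 2 := by
    by_contra hlt
    have h1 : (q + 3) ^ 4 ≤ m ^ 4 := Nat.pow_le_pow_left (by omega) 4
    have h2 : (q + 3) ^ 4 ≤ 3 * (q + 2) := by omega
    have h3 : (q + 3) * 27 ≤ (q + 3) ^ 4 := by
      have : 27 ≤ (q + 3) ^ 3 := by
        calc 27 = 3 ^ 3 := by norm_num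
          _ ≤ (q + 3) ^ 3 := Nat.pow_le_pow_left (by omega) 3
      calc (q + 3) * 27 ≤ (q + 3) * (q + 3) ^ 3 := Nat.mul_le_mul_left _ this
        _ = (q + 3) ^ 4 := by ring
    omega
  obtain ⟨k, rfl⟩ : ∃ k, m = k + 2 := ⟨m - 2, by omega⟩
  obtain ⟨g, hg⟩ : ∃ g, q = g + k := ⟨q - k, by omega⟩
  subst hg
  have hZ := hSH n g k x
    (Real.exp ((Real.log (1 + x) + ε) * (((s + k + 2).choose (k + 2) : ℕ) : ℝ) / ((s : ℝ) + 1)))
    hx (by omega) (fun D hD => h k s n (by omega) hm1 hm2 D (by omega))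
  refine hZ.trans (le_of_eq ?_)
  rw [← Real.exp_mul]
  congr 1
  have hch : n.choose (g + k + 2) * (g + k + 2).choose g =
      n.choose g * (s + k + 2).choose (k + 2) := by
    rw [Nat.choose_mul (by omega : g ≤ g + k + 2)]
    congr 2 <;> omega
  have hch' : (n.choose (g + k + 2) : ℝ) * ((g + k + 2).choose g : ℝ) =
      (n.choose g : ℝ) * ((s + k + 2).choose (k + 2) : ℝ) := by exact_mod_cast hch
  have hpos : (0 : ℝ) < ((g + k + 2).choose g : ℝ) := by
    exact_mod_cast Nat.choose_pos (by omega)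
  have hs1 : (0 : ℝ) < (s : ℝ) + 1 := by positivity
  field_simp
  linear_combination (-(Real.log (1 + x) + ε)) * hch'

end Pool.Agent.Work.MP_f3d170_sp
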