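import Pool.Agent.Work.MP_f3d170_sp.B_FINS

set_option autoImplicit false

open Set Matroid
open Pool.Agent.Work.MP_f3d170_co_h45
open Pool.Agent.Work.MP_f3d170_lin (IsPack Zp)

namespace Pool.Agent.Work.MP_f3d170_sp

lemma LOWR_iso {n : ℕ} {M N : Matroid (Fin n)} (hM : M.E = Set.univ) (hN : N.E = Set.univ)
    (h : Iso M N) : numBases N = numBases M := by
  obtain ⟨σ, rfl⟩ := h.exists_map hM hN
  unfold numBases
  have e : {B | (M.mapEquiv σ).IsBase B} = (fun B => σ '' B) '' {B | M.IsBase B} := by
    ext B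
    simp only [Set.mem_ofPred_eq, Set.mem_image]
    constructor
    · intro hB
      refine ⟨σ.symm '' B, ?_, ?_⟩
      · rw [mapEquiv_isBase_iff] at hB
        exact hB
      · rw [← Set.image_comp]
        simp
    · rintro ⟨B', hB', rfl⟩
      rw [mapEquiv_isBase_iff, ← Set.image_comp]
      simpa using hB'
  rw [e, Set.ncard_image_of_injective]
  exact Set.image_injective.2 σ.injective

lemma LOWR_isBase {n r : ℕ} (M : RankMatroid n r) (X : Finset (Fin n)) :
    M.1.IsBase (X : Set (Fin n)) ↔
      X ∈ (Finset.univ : Finset (Fin n)).powersetCard r ∧ X ∉ NB M := by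
  classical
  unfold NB
  rw [Finset.mem_filter, Finset.mem_powersetCard]
  constructor
  · intro h
    have h1 : (X : Set (Fin n)).encard = M.1.eRank := h.encard_eq_eRank
    rw [M.2.2, Set.encard_coe_eq_coe_finsetCard] at h1
    have h2 : X.card = r := by exact_mod_cast h1
    exact ⟨⟨Finset.subset_univ _, h2⟩, fun h' => h'.2 h⟩
  · rintro ⟨h1, h2⟩
    by_contra h3
    exact h2 ⟨h1, h3⟩

lemma LOWR_inj {n r : ℕ} : Function.Injective (NB : RankMatroid n r → Finset (Finset (Fin n))) := by
  classical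
  intro M M' h
  apply Subtype.ext
  refine Matroid.ext_isBase (by rw [M.2.1, M'.2.1]) ?_
  intro B _
  have h1 := LOWR_isBase M B.toFinset
  have h2 := LOWR_isBase M' B.toFinset
  rw [Set.coe_toFinset] at h1 h2
  rw [h1, h2, h]

/-- the case `r = n` -/
lemma LOWR_eq (n : ℕ) (𝒩 : Finset (RankMatroid n n)) (h : IsTransversal 𝒩) (hn : 1 ≤ n) :
    ∀ M : RankMatroid n n, numCircuits M.1 = 0 ∧ numBases M.1 = 1 ∧ SparsePaving M := by
  intro M
  have hE := M.2.1
  have hfree : M.1.Indep Set.univ := by
    obtain ⟨B, hB⟩ := M.1.exists_isBase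
    have h1 : B.encard = n := by rw [hB.encard_eq_eRank, M.2.2]
    have h2 : B = Set.univ := by
      apply Set.Finite.eq_of_subset_of_encard_le (Set.toFinite _) (Set.subset_univ _)
      rw [h1, Set.encard_univ, ENat.card_eq_coe_fintype_card, Fintype.card_fin]
    subst h2
    exact hB.indep
  have hcirc : ∀ C, ¬ M.1.IsCircuit C := fun C hC => hC.dep.not_indep
    (hfree.subset (Set.subset_univ _))
  have hbase : ∀ B, M.1.IsBase B ↔ B = Set.univ := by
    intro B
    constructor
    · intro hB
      exact hB.eq_of_subset_indep hfree (Set.subset_univ _)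
    · rintro rfl
      obtain ⟨B, hB⟩ := M.1.exists_isBase
      rwa [hB.eq_of_subset_indep hfree (Set.subset_univ _)] at hB
  refine ⟨?_, ?_, ?_, ?_⟩
  · unfold numCircuits
    have : {C | M.1.IsCircuit C} = ∅ := by
      rw [Set.eq_empty_iff_forall_notMem]
      exact fun C hC => hcirc C hC
    rw [this, Set.ncard_empty]
  · unfold numBases
    have : {B | M.1.IsBase B} = {Set.univ} := by
      ext B
      exact hbase B
    rw [this, Set.ncard_singleton]
  · intro C hC
    exact absurd hC (hcirc C)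
  · intro C hC
    rw [Nat.sub_self]
    exact Nat.zero_le _

theorem p_LOWR (hSPA : Stmt_SPA) (hSPN : Stmt_SPN) : Stmt_LOWR := by
  classical
  intro n r 𝒩 h𝒩 hr hrn hn
  rcases Nat.eq_or_lt_of_le hrn with heq | hlt
  · subst heq
    have hall := LOWR_eq r 𝒩 h𝒩 (by omega)
    have hM : ∃ M : RankMatroid r r, True := by
      refine ⟨⟨Matroid.freeOn Set.univ, rfl, ?_⟩, trivial⟩
      rw [eRank_freeOn, Set.encard_univ, ENat.card_eq_coe_fintype_card, Fintype.card_fin]
    obtain ⟨M, -⟩ := hM
    obtain ⟨N, ⟨hN, -⟩, -⟩ := h𝒩 M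
    apply Finset.sum_lt_sum_of_nonempty ⟨N, Finset.mem_filter.2 ⟨hN, (hall N).2.2⟩⟩
    intro M _
    rw [(hall M).1, (hall M).2.1]
    exact Nat.one_pos
  obtain ⟨k, rfl⟩ : ∃ k, r = k + 2 := ⟨r - 2, by omega⟩
  obtain ⟨s, hs⟩ : ∃ s, n = (k + 2) + s := ⟨n - (k + 2), by omega⟩
  have hs' : n - (k + 2) = s := by omega
  have hs1 : 1 ≤ s := by omega
  have hsk : s ≤ k + 3 := by omega
  have hkey : ∀ M : RankMatroid n (k + 2), SparsePaving M →
      ((k : ℤ) + 3) * (numBases M.1 - numCircuits M.1) =
        ((k : ℤ) + 3 - s) * (n.choose (k + 2) : ℕ) + (k + 3) * ((s : ℤ) - 2) * (NB M).card := by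
    intro M hM
    obtain ⟨-, hb, hc⟩ := hSPA n k M (by omega) hM
    have hch : n.choose (k + 3) * (k + 3) = n.choose (k + 2) * (n - (k + 2)) :=
      Nat.choose_succ_right_eq n (k + 2)
    rw [hs'] at hc hch
    have f1 : (numCircuits M.1 : ℤ) + s * (NB M).card = n.choose (k + 3) + (NB M).card := by
      exact_mod_cast hc
    have f2 : (numBases M.1 : ℤ) + (NB M).card = n.choose (k + 2) := by exact_mod_cast hb
    have f3 : (n.choose (k + 3) : ℤ) * (k + 3) = n.choose (k + 2) * s := by exact_mod_cast hch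
    linear_combination (k + 3) * f2 - (k + 3) * f1 - f3
  have hpack : ∀ M : RankMatroid n (k + 2), SparsePaving M → s = 1 → (NB M).card ≤ 1 := by
    intro M hM hs1
    rw [Finset.card_le_one]
    intro X hX Y hY
    by_contra hne
    have h1 := (hSPA n k M (by omega) hM).1 X hX Y hY hne
    have hsub : NB M ⊆ (Finset.univ : Finset (Fin n)).powersetCard (k + 2) := by
      unfold NB
      exact Finset.filter_subset _ _
    have hXc := (Finset.mem_powersetCard.1 (hsub hX)).2
    have hYc := (Finset.mem_powersetCard.1 (hsub hY)).2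
    have h2 := Finset.card_union_add_card_inter X Y
    have h3 : (X ∪ Y).card ≤ n := by
      have := Finset.card_le_univ (X ∪ Y)
      rwa [Fintype.card_fin] at this
    omega
  have hNpos : 0 < n.choose (k + 2) := Nat.choose_pos (by omega)
  have hle : ∀ M : RankMatroid n (k + 2), SparsePaving M →
      numCircuits M.1 ≤ numBases M.1 ∧ (s ≤ k + 2 → numCircuits M.1 < numBases M.1) ∧
      (s = k + 3 → 1 ≤ (NB M).card → numCircuits M.1 < numBases M.1) := by
    intro M hM
    have h1 := hkey M hM
    have h2 := hpack M hM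
    have f7 : (1 : ℤ) ≤ (n.choose (k + 2) : ℕ) := by exact_mod_cast hNpos
    have f8 : (0 : ℤ) ≤ (NB M).card := Int.natCast_nonneg _
    have f9 : (0 : ℤ) ≤ k := Int.natCast_nonneg _
    have fs : (s : ℤ) ≤ k + 3 := by exact_mod_cast hsk
    have main : ∀ z : ℤ, 0 ≤ z → ((k : ℤ) + 3 - s) * (n.choose (k + 2) : ℕ) +
        (k + 3) * ((s : ℤ) - 2) * (NB M).card ≥ z → (z = 0 ∨ 0 < z) →
        (numCircuits M.1 ≤ numBases M.1 ∧ (0 < z → numCircuits M.1 < numBases M.1)) := by
      intro z hz hz1 _
      rw [← h1] at hz1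
      have hk3 : (0 : ℤ) < k + 3 := by linarith
      constructor
      · by_contra hlt
        push Not at hlt
        have h3 : (numBases M.1 : ℤ) - numCircuits M.1 < 0 := by
          have : (numBases M.1 : ℤ) < numCircuits M.1 := by exact_mod_cast hlt
          linarith
        have := mul_neg_of_pos_of_neg hk3 h3
        linarith
      · intro hz2
        by_contra hlt
        push Not at hlt
        have h3 : (numBases M.1 : ℤ) - numCircuits M.1 ≤ 0 := by
          have : (numBases M.1 : ℤ) ≤ numCircuits M.1 := by exact_mod_cast hlt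
          linarith
        have := mul_nonpos_of_nonneg_of_nonpos hk3.le h3
        linarith
    rcases Nat.eq_or_lt_of_le hs1 with h1s | h2s
    · -- `s = 1`
      have hs1' : s = 1 := h1s.symm
      have hp := h2 hs1'
      have hN : n.choose (k + 2) = k + 3 := by
        rw [hs, hs1']
        have : k + 2 + 1 = (k + 2) + 1 := rfl
        rw [Nat.choose_succ_self_right]
      have hm := main 1 (by norm_num) (by
        rw [hN, hs1']
        have hp' : ((NB M).card : ℤ) ≤ 1 := by exact_mod_cast hp
        push_cast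
        nlinarith) (Or.inr (by norm_num))
      exact ⟨hm.1, fun _ => hm.2 (by norm_num), fun _ _ => hm.2 (by norm_num)⟩
    · have hs2 : (2 : ℤ) ≤ s := by exact_mod_cast h2s
      have g1 : (0 : ℤ) ≤ ((k : ℤ) + 3 - s) * (n.choose (k + 2) : ℕ) :=
        mul_nonneg (by linarith) (by linarith)
      have g2 : (0 : ℤ) ≤ (k + 3) * ((s : ℤ) - 2) * (NB M).card :=
        mul_nonneg (mul_nonneg (by linarith) (by linarith)) f8
      refine ⟨(main 0 le_rfl (by linarith) (Or.inl rfl)).1, fun hsk2 => ?_, fun hsk3 hp => ?_⟩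
      · have g3 : (s : ℤ) ≤ k + 2 := by exact_mod_cast hsk2
        have g4 : (1 : ℤ) ≤ ((k : ℤ) + 3 - s) * (n.choose (k + 2) : ℕ) := by
          have : (1 : ℤ) ≤ (k : ℤ) + 3 - s := by linarith
          nlinarith
        exact (main 1 (by norm_num) (by linarith) (Or.inr (by norm_num))).2 (by norm_num)
      · have g3 : (1 : ℤ) ≤ (NB M).card := by exact_mod_cast hp
        have g5 : (1 : ℤ) ≤ (s : ℤ) - 2 := by
          rw [hsk3]
          push_cast
          have : (1 : ℤ) ≤ k := by
            have : 1 ≤ k := by omega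
            exact_mod_cast this
          linarith
        have g6 : (1 : ℤ) ≤ (k + 3) * ((s : ℤ) - 2) := by nlinarith
        have g4 : (1 : ℤ) ≤ (k + 3) * ((s : ℤ) - 2) * (NB M).card := by nlinarith
        exact (main 1 (by norm_num) (by linarith) (Or.inr (by norm_num))).2 (by norm_num)
  -- there is a sparse paving matroid in `𝒩` with the strict inequality
  have hex : ∃ M ∈ 𝒩, SparsePaving M ∧ numCircuits M.1 < numBases M.1 := by
    have hcard := hSPN n k (by omega)
    by_cases hsk2 : s ≤ k + 2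
    · have h2 : 0 < Nat.card {M : RankMatroid n (k + 2) // SparsePaving M} :=
        lt_of_lt_of_le (Nat.two_pow_pos _) hcard
      obtain ⟨⟨⟨M, hM⟩⟩, -⟩ := Nat.card_pos_iff.1 h2
      obtain ⟨N, ⟨hN, hi⟩, -⟩ := h𝒩 M
      have hsN := SparsePaving.of_iso hi hM
      exact ⟨N, hN, hsN, (hle N hsN).2.1 hsk2⟩
    · have hsk3 : s = k + 3 := by omega
      have hdiv : 1 ≤ n.choose (k + 2) / n := by
        rw [Nat.one_le_div_iff (by omega)]
        have h1 : ∀ j : ℕ, j + 1 ≤ n / 2 → n ≤ n.choose (j + 1) := by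
          intro j
          induction j with
          | zero => intro _; rw [zero_add, Nat.choose_one_right]
          | succ j ih =>
            intro hj
            exact (ih (by omega)).trans (Nat.choose_le_succ_of_lt_half_left (by omega))
        exact h1 (k + 1) (by omega)
      have h2 : 1 < Nat.card {M : RankMatroid n (k + 2) // SparsePaving M} := by
        calc 1 < 2 ^ 1 := by norm_num
          _ ≤ 2 ^ (n.choose (k + 2) / n) := Nat.pow_le_pow_right (by norm_num) hdiv
          _ ≤ _ := hcard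
      have hfin : Finite {M : RankMatroid n (k + 2) // SparsePaving M} :=
        Nat.finite_of_card_ne_zero (by omega)
      obtain ⟨M, M', hMM⟩ := Finite.one_lt_card_iff_nontrivial.1 h2
      have hne : (NB M.1).card ≠ 0 ∨ (NB M'.1).card ≠ 0 := by
        by_contra hcon
        push Not at hcon
        apply hMM
        apply Subtype.ext
        apply LOWR_inj
        rw [Finset.card_eq_zero.1 hcon.1, Finset.card_eq_zero.1 hcon.2]
      obtain ⟨M, hM⟩ : ∃ M : {M : RankMatroid n (k + 2) // SparsePaving M}, (NB M.1).card ≠ 0 := by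
        rcases hne with h | h
        · exact ⟨_, h⟩
        · exact ⟨_, h⟩
      obtain ⟨N, ⟨hN, hi⟩, -⟩ := h𝒩 M.1
      have hsN := SparsePaving.of_iso hi M.2
      have e1 := LOWR_iso M.1.2.1 N.2.1 hi
      have e2 := (hSPA n k M.1 (by omega) M.2).2.1
      have e3 := (hSPA n k N (by omega) hsN).2.1
      exact ⟨N, hN, hsN, (hle N hsN).2.2 hsk3 (by omega)⟩
  obtain ⟨M₀, hM₀, hs₀, hlt₀⟩ := hex
  apply Finset.sum_lt_sum
  · intro M hM
    exact (hle M (Finset.mem_filter.1 hM).2).1
  · exact ⟨M₀, Finset.mem_filter.2 ⟨hM₀, hs₀⟩, hlt₀⟩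

end Pool.Agent.Work.MP_f3d170_sp
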