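import Pool.Agent.Work.MP_f3d170_sp.Interface
import Pool.Agent.Work.MP_f3d170_lin.B_PHIB

/-! # Block PHIBX: the parameters of the potential for `x ≤ 6` -/

set_option autoImplicit false

open Set Matroid Filter
open Pool.Agent.Work.MP_f3d170_lin (IsPack Zp PHIB_log PHIB_two PHIB_N)

namespace Pool.Agent.Work.MP_f3d170_sp

/-- the conditions -/
theorem PHIBX_core (e lx ε a r ρ u K κ N x : ℝ) (he : e = ε / 4) (hε : 0 < ε) (hε1 : ε ≤ 1)
    (hlx : 0 < lx) (hlx1 : lx ≤ 2) (hx6 : x ≤ 6) (hx0 : 0 < x) (ha : 2 ≤ a) (hra : 4 * a ^ 2 ≤ r)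
    (hρ : 1 ≤ ρ)
    (hkey : 25 * ρ ^ 2 ≤ 2 * (lx * e * ε * a)) (hur : u * (r + 1) = N) (hu2 : r + 2 ≤ 2 * u)
    (hK : K = (1 + e) * u) (hκ : κ * (a * e) = 2 * K * ρ) (hρr : Real.exp ρ = r + 1)
    (hlxx : Real.exp lx = 1 + x) :
    1 ≤ κ ∧ κ ≤ K ∧ 0 < a * e ∧ κ * (2 * Real.log 2) ≤ K * lx ∧ 2 * K * ρ ≤ κ * (a * e) ∧
    2 * x * N ≤ κ * (r + 1) ^ 2 ∧ K ≤ N ∧ 2 * x * K ≤ κ * 2 ^ κ ∧
    (∀ i : ℝ, K < i → a * e * i / K ≤ a ^ 2 * i / (a * u) - a) ∧
    (1 + x) ^ K * (N / K) ^ κ ≤ Real.exp ((lx + ε) * N / (r + 1)) := by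
  have he0 : 0 < e := by rw [he]; positivity
  have he1 : e ≤ 1 / 4 := by rw [he]; linarith
  have ha0 : 0 < a := by linarith
  have hae : 0 < a * e := mul_pos ha0 he0
  have hr0 : 16 ≤ r := by nlinarith
  have hr1 : 0 < r + 1 := by linarith
  have hu0 : 0 < u := by linarith
  have hK0 : 0 < K := by rw [hK]; positivity
  have hρ0 : 0 < ρ := by linarith
  have hρs : ρ ≤ ρ ^ 2 := by nlinarith
  have hp : 0 < lx * (a * e) := mul_pos hlx hae
  have h8 : 8 * ρ ≤ lx * (a * e) := by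
    have h1 : lx * e * ε * a ≤ lx * (a * e) := by
      have : lx * e * ε * a = (lx * (a * e)) * ε := by ring
      rw [this]
      exact mul_le_of_le_one_right hp.le hε1
    linarith
  have h8' : 4 * ρ ≤ a * e := by
    have h1 : lx * (a * e) ≤ 2 * (a * e) := mul_le_mul_of_nonneg_right hlx1 hae.le
    linarith
  have hr25 : 25 * ρ ^ 2 ≤ 4 * (ε * (a * e)) := by
    have h1 : lx * e * ε * a ≤ 2 * (ε * (a * e)) := by
      have : lx * e * ε * a = lx * (ε * (a * e)) := by ring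
      rw [this]
      exact mul_le_mul_of_nonneg_right hlx1 (mul_pos hε hae).le
    linarith
  have hlog2 : 0 < Real.log 2 := Real.log_pos (by norm_num)
  have hlog2' : Real.log 2 < 1 := by
    have := Real.log_two_lt_d9
    linarith
  have hKu : u ≤ K := by
    rw [hK]
    exact le_mul_of_one_le_left hu0.le (by linarith)
  have hae4 : a * e ≤ a * (1 / 4) := by gcongr
  have hκa : 2 * a ≤ κ := by
    have h1 : 2 * a * (a * e) ≤ κ * (a * e) := by
      rw [hκ]
      have h2 : 2 * a * (a * e) ≤ 2 * a * (a * (1 / 4)) := by gcongr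
      have h3 : 2 * u * 1 ≤ 2 * K * ρ := by gcongr
      have h4 : 2 * a * (a * (1 / 4)) = a ^ 2 / 2 := by ring
      have h5 : a ^ 2 ≤ 2 * u := by
        have := sq_nonneg a
        linarith
      have := sq_nonneg a
      linarith
    exact le_of_mul_le_mul_right h1 hae
  have hκ0 : 0 < κ := by linarith
  have hKN : K ≤ N := by
    rw [← hur, hK, mul_comm u]
    apply mul_le_mul_of_nonneg_right _ hu0.le
    linarith
  have hxae : x * (a * e) ≤ 2 * a := by
    calc x * (a * e) ≤ 6 * (a * (1 / 4)) := by gcongr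
      _ ≤ 2 * a := by linarith
  refine ⟨by linarith, ?_, hae, ?_, hκ.ge, ?_, hKN, ?_, ?_, ?_⟩
  · have h1 : κ * (a * e) ≤ K * (a * e) := by
      rw [hκ]
      calc 2 * K * ρ = K * (2 * ρ) := by ring
        _ ≤ K * (a * e) := mul_le_mul_of_nonneg_left (by linarith) hK0.le
    exact le_of_mul_le_mul_right h1 hae
  · have h1 : κ * (2 * Real.log 2) * (a * e) ≤ K * lx * (a * e) := by
      calc κ * (2 * Real.log 2) * (a * e) = (κ * (a * e)) * (2 * Real.log 2) := by ring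
        _ = (2 * K * ρ) * (2 * Real.log 2) := by rw [hκ]
        _ ≤ (2 * K * ρ) * 2 := by gcongr; linarith
        _ = K * (4 * ρ) := by ring
        _ ≤ K * (lx * (a * e)) := mul_le_mul_of_nonneg_left (by linarith) hK0.le
        _ = K * lx * (a * e) := by ring
    exact le_of_mul_le_mul_right h1 hae
  · have h1 : 2 * x * N * (a * e) ≤ κ * (r + 1) ^ 2 * (a * e) := by
      have h2 : κ * (r + 1) ^ 2 * (a * e) = (2 * K * ρ) * (r + 1) ^ 2 := by
        rw [← hκ]; ring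
      rw [h2]
      have h3 : 2 * N ≤ 2 * K * (r + 1) := by
        rw [← hur]
        calc 2 * (u * (r + 1)) = 2 * u * (r + 1) := by ring
          _ ≤ 2 * K * (r + 1) := by gcongr
      have h4 : x * (a * e) ≤ ρ * (r + 1) := by
        have h6 : 2 * a ≤ 4 * a ^ 2 := by nlinarith
        have h7 : 1 * (r + 1) ≤ ρ * (r + 1) := by gcongr
        linarith
      have h0 : 0 ≤ x * (a * e) := (mul_pos hx0 hae).le
      calc 2 * x * N * (a * e) = (2 * N) * (x * (a * e)) := by ring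
        _ ≤ (2 * K * (r + 1)) * (ρ * (r + 1)) :=
            mul_le_mul h3 h4 h0 (by positivity)
        _ = _ := by ring
    exact le_of_mul_le_mul_right h1 hae
  · have h1 := PHIB_two κ hκ0.le
    have h3 : 2 * x * K * (a * e) ≤ κ * 2 ^ κ * (a * e) := by
      have h4 : κ * (2 : ℝ) ^ κ * (a * e) = (2 * K) * (ρ * 2 ^ κ) := by
        rw [show κ * (2 : ℝ) ^ κ * (a * e) = (κ * (a * e)) * 2 ^ κ by ring, hκ]; ring
      have h4' : 2 * x * K * (a * e) = (2 * K) * (x * (a * e)) := by ring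
      rw [h4, h4']
      have h5 : x * (a * e) ≤ ρ * 2 ^ κ := by
        have h7 : 1 * (2 : ℝ) ^ κ ≤ ρ * 2 ^ κ := by gcongr
        linarith
      exact mul_le_mul_of_nonneg_left h5 (by positivity)
    exact le_of_mul_le_mul_right h3 hae
  · intro i hi
    have hi' : 1 ≤ i / K := by
      rw [le_div_iff₀ hK0]; linarith
    have h2 : a ^ 2 * i / (a * u) = a * (1 + e) * (i / K) := by
      rw [hK]; field_simp
    have h3 : a * e * i / K = a * e * (i / K) := by ring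
    rw [h2, h3]
    have h4 : a * 1 ≤ a * (i / K) := by gcongr
    have h5 : a * (1 + e) * (i / K) = a * (i / K) + a * e * (i / K) := by ring
    linarith
  · have hN0 : 0 < N := by linarith
    have hNK : N / K ≤ r + 1 := by
      rw [div_le_iff₀ hK0, ← hur]
      calc u * (r + 1) ≤ K * (r + 1) := by gcongr
        _ = (r + 1) * K := by ring
    have h1 : (1 + x) ^ K = Real.exp (lx * K) := by
      rw [← hlxx, ← Real.exp_mul]
    have h2 : (N / K) ^ κ ≤ Real.exp (ρ * κ) := by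
      calc (N / K) ^ κ ≤ (r + 1) ^ κ :=
            Real.rpow_le_rpow (by positivity) hNK hκ0.le
        _ = Real.exp (ρ * κ) := by rw [← hρr, ← Real.exp_mul]
    have h3 : ρ * κ ≤ ε / 2 * u := by
      have h4 : ρ * κ * (a * e) ≤ ε / 2 * u * (a * e) := by
        calc ρ * κ * (a * e) = ρ * (κ * (a * e)) := by ring
          _ = ρ * (2 * K * ρ) := by rw [hκ]
          _ = (2 * ρ ^ 2 * (1 + e)) * u := by rw [hK]; ring
          _ ≤ (ε / 2 * (a * e)) * u := by
              apply mul_le_mul_of_nonneg_right _ hu0.le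
              have h5 : 2 * ρ ^ 2 * (1 + e) ≤ 2 * ρ ^ 2 * (5 / 4) := by gcongr; linarith
              have h6 : 0 ≤ ε * (a * e) := by positivity
              linarith
          _ = _ := by ring
      exact le_of_mul_le_mul_right h4 hae
    have h7 : lx * K ≤ lx * u + ε / 2 * u := by
      have h8 : lx * K = lx * u + lx * e * u := by rw [hK]; ring
      have h9 : lx * e * u ≤ 2 * e * u := by gcongr
      rw [h8]
      have h10 : 2 * e * u = ε / 2 * u := by rw [he]; ring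
      linarith
    calc (1 + x) ^ K * (N / K) ^ κ ≤ Real.exp (lx * K) * Real.exp (ρ * κ) := by
          rw [h1]
          exact mul_le_mul_of_nonneg_left h2 (Real.exp_pos _).le
      _ = Real.exp (lx * K + ρ * κ) := by rw [Real.exp_add]
      _ ≤ Real.exp ((lx + ε) * N / (r + 1)) := by
          apply Real.exp_le_exp.2
          have h8 : (lx + ε) * N / (r + 1) = (lx + ε) * u := by
            rw [← hur]; field_simp
          rw [h8]
          linarith

theorem p_PHIBX : Stmt_PHIBX := by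
  intro x ε hx hx1 hε hε1
  have hlx : 0 < Real.log (1 + x) := Real.log_pos (by linarith)
  have hlx1 : Real.log (1 + x) ≤ 2 := by
    rw [Real.log_le_iff_le_exp (by linarith)]
    have h1 := Real.exp_one_gt_d9
    have h2 : Real.exp 2 = Real.exp 1 * Real.exp 1 := by rw [← Real.exp_add]; norm_num
    rw [h2]
    nlinarith
  obtain ⟨k₁, hk₁⟩ := PHIB_log (Real.log (1 + x) * (ε / 4) * ε / 200) (by positivity)
  refine ⟨k₁, fun k r hk hr1 hr2 => ?_⟩
  obtain ⟨hl1, hl2⟩ := hk₁ k hk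
  obtain ⟨hNs, hNl⟩ := PHIB_N r k
  have hk0 : (0 : ℝ) ≤ k := Nat.cast_nonneg k
  have hr0 : (0 : ℝ) ≤ r := Nat.cast_nonneg r
  have hrp : (0 : ℝ) < (r : ℝ) + 1 := by linarith
  have ha2 : (2 : ℝ) ≤ (k : ℝ) + 2 := by linarith
  have hr1' : ((k : ℝ) + 2) ^ 4 ≤ (r : ℝ) := by exact_mod_cast hr1
  have hra2 : 4 * ((k : ℝ) + 2) ^ 2 ≤ r := by
    have h1 : 0 ≤ ((k : ℝ) + 2) ^ 2 - 4 := by nlinarith
    have h2 : 0 ≤ ((k : ℝ) + 2) ^ 2 * (((k : ℝ) + 2) ^ 2 - 4) := mul_nonneg (sq_nonneg _) h1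
    have h3 : ((k : ℝ) + 2) ^ 2 * (((k : ℝ) + 2) ^ 2 - 4) =
      ((k : ℝ) + 2) ^ 4 - 4 * ((k : ℝ) + 2) ^ 2 := by ring
    linarith
  have hρ4 : Real.log ((r : ℝ) + 1) ≤ 4 * Real.log ((k : ℝ) + 3) := by
    have h1 : (r : ℝ) + 1 ≤ ((k : ℝ) + 3) ^ 4 := by exact_mod_cast hr2
    calc Real.log ((r : ℝ) + 1) ≤ Real.log (((k : ℝ) + 3) ^ 4) := Real.log_le_log hrp h1
      _ = 4 * Real.log ((k : ℝ) + 3) := by rw [Real.log_pow]; norm_num
  have hρ1 : 1 ≤ Real.log ((r : ℝ) + 1) := by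
    refine hl1.trans (Real.log_le_log (by positivity) ?_)
    nlinarith
  have hkey : 25 * Real.log ((r : ℝ) + 1) ^ 2 ≤
      2 * (Real.log (1 + x) * (ε / 4) * ε * ((k : ℝ) + 2)) := by
    have h1 : Real.log ((r : ℝ) + 1) ^ 2 ≤ (4 * Real.log ((k : ℝ) + 3)) ^ 2 :=
      pow_le_pow_left₀ (by linarith) hρ4 2
    have h2 : (4 * Real.log ((k : ℝ) + 3)) ^ 2 = 16 * Real.log ((k : ℝ) + 3) ^ 2 := by ring
    have h3 : Real.log (1 + x) * (ε / 4) * ε / 200 * ((k : ℝ) + 2) =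
      (Real.log (1 + x) * (ε / 4) * ε * ((k : ℝ) + 2)) / 200 := by ring
    rw [h2] at h1
    rw [h3] at hl2
    linarith
  set N : ℝ := (((r + k + 2).choose (k + 2) : ℕ) : ℝ) with hN
  have hur : N / ((r : ℝ) + 1) * ((r : ℝ) + 1) = N := by field_simp
  have hu2 : (r : ℝ) + 2 ≤ 2 * (N / ((r : ℝ) + 1)) := by
    have : ((r : ℝ) + 2) * ((r : ℝ) + 1) ≤ (2 * (N / ((r : ℝ) + 1))) * ((r : ℝ) + 1) := by
      rw [mul_assoc 2, hur]; exact hNl
    exact le_of_mul_le_mul_right this hrp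
  have hae : (((k : ℝ) + 2) * (ε / 4)) ≠ 0 := by positivity
  have hcore := PHIBX_core (ε / 4) (Real.log (1 + x)) ε ((k : ℝ) + 2) r (Real.log ((r : ℝ) + 1))
    (N / ((r : ℝ) + 1)) ((1 + ε / 4) * (N / ((r : ℝ) + 1)))
    (2 * ((1 + ε / 4) * (N / ((r : ℝ) + 1))) * Real.log ((r : ℝ) + 1) / (((k : ℝ) + 2) * (ε / 4)))
    N x rfl hε hε1 hlx hlx1 hx1 hx ha2 hra2 hρ1 hkey hur hu2 rfl (div_mul_cancel₀ _ hae)
    (Real.exp_log hrp) (Real.exp_log (by linarith))
  obtain ⟨c1, c2, c3, c4, c5, c6, c7, c8, c9, c10⟩ := hcore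
  refine ⟨_, _, _, c1, c2, c3, c4, c5, c6, c7, c8, ?_, c10⟩
  intro i hi
  have h := c9 i hi
  have h1 : (((k + 2 : ℕ) : ℝ)) = (k : ℝ) + 2 := by push_cast; ring
  have hC : (((r + k + 2).choose (k + 1) : ℕ) : ℝ) = ((k : ℝ) + 2) * (N / ((r : ℝ) + 1)) := by
    field_simp
    rw [hNs]
    ring
  rw [h1, hC]
  exact h

end Pool.Agent.Work.MP_f3d170_sp
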