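import Pool.Agent.Work.MP_f3d170_sp.Interface
import Pool.Agent.Work.MP_f3d170_lin.B_DEG

/-! # PRECX: the recursion for the generating function of the packings -/

set_option autoImplicit false

open Finset
open Pool.Agent.Work.MP_f3d170_co_h45
open Pool.Agent.Work.MP_f3d170_lin (IsPack Zp)

namespace Pool.Agent.Work.MP_f3d170_sp

open Classical in
theorem PRECX_triv {n : ℕ} (k : ℕ) (x : ℝ) (hx : 0 < x) (A : Finset (Finset (Fin n))) :
    Zp k x A ≤ (1 + x) ^ A.card := by
  unfold Zp
  calc ∑ P ∈ A.powerset with IsPack k P, x ^ P.card ≤ ∑ P ∈ A.powerset, x ^ P.card :=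
        Finset.sum_le_sum_of_subset_of_nonneg (Finset.filter_subset _ _) fun _ _ _ => by positivity
    _ = (1 + x) ^ A.card := by
        have := Finset.sum_pow_mul_eq_add_pow x 1 A
        simp only [one_pow, mul_one] at this
        rw [this, add_comm]

/-- the neighbours of `v` in `A` -/
def PRECX_nbr {n : ℕ} (k : ℕ) (A : Finset (Finset (Fin n))) (v : Finset (Fin n)) :
    Finset (Finset (Fin n)) := A.filter (fun u => u ≠ v ∧ k < (u ∩ v).card)

open Classical in
theorem PRECX_rec {n : ℕ} (k : ℕ) (x : ℝ) (hx : 0 < x) (A : Finset (Finset (Fin n)))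
    (v : Finset (Fin n)) :
    Zp k x A ≤ Zp k x (A.erase v) + x * Zp k x (A.erase v \ PRECX_nbr k A v) := by
  unfold Zp
  have h0 := Finset.sum_filter_add_sum_filter_not (A.powerset.filter (IsPack k)) (fun P => v ∈ P)
    (fun P : Finset (Finset (Fin n)) => x ^ P.card)
  rw [← h0, add_comm]
  apply add_le_add
  · apply Finset.sum_le_sum_of_subset_of_nonneg
    · intro P hP
      simp only [Finset.mem_filter, Finset.mem_powerset] at hP ⊢
      refine ⟨?_, hP.1.2⟩
      intro u hu
      rw [Finset.mem_erase]
      exact ⟨fun h => hP.2 (h ▸ hu), hP.1.1 hu⟩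
    · intro _ _ _
      positivity
  · have h1 : ∑ P ∈ (A.powerset.filter (IsPack k)).filter (fun P => v ∈ P), x ^ P.card =
        x * ∑ P ∈ (A.powerset.filter (IsPack k)).filter (fun P => v ∈ P), x ^ (P.erase v).card := by
      rw [Finset.mul_sum]
      apply Finset.sum_congr rfl
      intro P hP
      have hv : v ∈ P := (Finset.mem_filter.1 hP).2
      rw [← Finset.card_erase_add_one hv, pow_succ, mul_comm]
    rw [h1]
    refine mul_le_mul_of_nonneg_left ?_ hx.le
    have hinj : Set.InjOn (fun P : Finset (Finset (Fin n)) => P.erase v)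
        (((A.powerset.filter (IsPack k)).filter (fun P => v ∈ P) :
          Finset (Finset (Finset (Fin n)))) : Set (Finset (Finset (Fin n)))) := by
      intro P hP Q hQ he
      rw [Finset.mem_coe, Finset.mem_filter] at hP hQ
      simp only at he
      rw [← Finset.insert_erase hP.2, ← Finset.insert_erase hQ.2, he]
    rw [← Finset.sum_image (f := fun P : Finset (Finset (Fin n)) => x ^ P.card) hinj]
    apply Finset.sum_le_sum_of_subset_of_nonneg
    · intro P hP
      obtain ⟨Q, hQ, rfl⟩ := Finset.mem_image.mp hP
      simp only [Finset.mem_filter, Finset.mem_powerset] at hQ ⊢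
      obtain ⟨⟨hQA, hQp⟩, hvQ⟩ := hQ
      constructor
      · intro u hu
        rw [Finset.mem_erase] at hu
        rw [Finset.mem_sdiff, Finset.mem_erase]
        refine ⟨⟨hu.1, hQA hu.2⟩, ?_⟩
        unfold PRECX_nbr
        rw [Finset.mem_filter]
        rintro ⟨_, h1, h2⟩
        exact absurd (hQp u hu.2 v hvQ h1) (not_le.mpr h2)
      · intro X hX Y hY hne
        exact hQp X (Finset.mem_of_mem_erase hX) Y (Finset.mem_of_mem_erase hY) hne
    · intro _ _ _
      positivity

theorem p_PRECX : Stmt_PRECX := by
  intro n k K₀ x D Φ hx hΦ1 hΦ2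
  have hDEG := Pool.Agent.Work.MP_f3d170_lin.p_DEG
  have key : ∀ i : ℕ, ∀ A : Finset (Finset (Fin n)), A ⊆ D.powersetCard (k + 2) → A.card = i →
      Zp k x A ≤ Φ i := by
    intro i
    induction i using Nat.strong_induction_on with
    | _ i ih =>
      intro A hA hcard
      rcases Nat.lt_or_ge K₀ i with hi | hi
      · have hne : A.Nonempty := by
          rw [← Finset.card_pos, hcard]; omega
        obtain ⟨v, hv, hdeg⟩ := hDEG n k D A hA hne
        set d := (A.filter (fun u => u ≠ v ∧ k < (u ∩ v).card)).card with hd
        have hsub : PRECX_nbr k A v ⊆ A.erase v := by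
          intro u hu
          unfold PRECX_nbr at hu
          rw [Finset.mem_filter] at hu
          exact Finset.mem_erase.mpr ⟨hu.2.1, hu.1⟩
        have hce : (A.erase v).card = i - 1 := by
          rw [Finset.card_erase_of_mem hv, hcard]
        have hdle : d ≤ i - 1 := by
          rw [← hce]
          exact Finset.card_le_card hsub
        have hcs : (A.erase v \ PRECX_nbr k A v).card = i - 1 - d := by
          rw [Finset.card_sdiff_of_subset hsub, hce]
          rfl
        have hiD : i ≤ D.card.choose (k + 2) := by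
          rw [← hcard, ← Finset.card_powersetCard]
          exact Finset.card_le_card hA
        have h1 := PRECX_rec k x hx A v
        have h2 := ih (i - 1) (by omega) (A.erase v) ((Finset.erase_subset _ _).trans hA) hce
        have h3 := ih (i - 1 - d) (by omega) (A.erase v \ PRECX_nbr k A v)
          ((Finset.sdiff_subset.trans (Finset.erase_subset _ _)).trans hA) hcs
        have h4 := hΦ2 i d hi hiD (by omega) (by rw [hcard] at hdeg; exact hdeg)
        have h5 := mul_le_mul_of_nonneg_left h3 hx.le
        linarith
      · calc Zp k x A ≤ (1 + x) ^ A.card := PRECX_triv k x hx A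
          _ = (1 + x) ^ i := by rw [hcard]
          _ ≤ Φ i := hΦ1 i hi
  exact key _ _ (Finset.Subset.refl _) (by rw [Finset.card_powersetCard])

end Pool.Agent.Work.MP_f3d170_sp
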