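import Pool.Agent.Work.MP_f3d170_sp.Interface
import Pool.Agent.Work.MP_f3d170_lin.B_FINNER
import Pool.Agent.Work.MP_f3d170_lin.B_HOL

/-! # SHEARP: generating functions of packings and Finner's inequality -/

set_option autoImplicit false

open Set Matroid
open Pool.Agent.Work.MP_f3d170_co_h45
open Pool.Agent.Work.MP_f3d170_lin (IsPack Zp)

namespace Pool.Agent.Work.MP_f3d170_sp

open Classical in
/-- the weight of a family of sets -/
noncomputable def SHEARP_f {n : ℕ} (m : ℕ) (x : ℝ) (y : Finset (Finset (Fin n))) : ℝ :=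
  if IsPack m y then x ^ y.card else 0

theorem SHEARP_f_nonneg {n : ℕ} (m : ℕ) {x : ℝ} (hx : 0 < x) (y : Finset (Finset (Fin n))) :
    0 ≤ SHEARP_f m x y := by
  unfold SHEARP_f
  split_ifs
  · positivity
  · exact le_rfl

theorem SHEARP_slice {n : ℕ} (g k : ℕ) {x : ℝ} (hx : 0 < x) (G : Finset (Fin n))
    (hG : G.card = g) (A : Finset (Finset (Fin n)))
    (hA : ∀ X ∈ A, G ⊆ X ∧ X.card = g + k + 2) :
    ∑ y ∈ A.powerset, SHEARP_f (g + k) x y ≤ Zp k x ((Gᶜ).powersetCard (k + 2)) := by
  classical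
  have hcard : ∀ X ∈ A, (X \ G).card = k + 2 := by
    intro X hX
    obtain ⟨h1, h2⟩ := hA X hX
    rw [Finset.card_sdiff_of_subset h1, h2, hG]
    omega
  have hinj : ∀ X ∈ A, ∀ Y ∈ A, X \ G = Y \ G → X = Y := by
    intro X hX Y hY h
    rw [← Finset.sdiff_union_of_subset (hA X hX).1, ← Finset.sdiff_union_of_subset (hA Y hY).1, h]
  set e : Finset (Finset (Fin n)) → Finset (Finset (Fin n)) := fun y => y.image (· \ G) with he
  have hce : ∀ y ∈ A.powerset, (e y).card = y.card := by
    intro y hy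
    rw [Finset.mem_powerset] at hy
    exact Finset.card_image_of_injOn fun X hX Y hY h => hinj X (hy hX) Y (hy hY) h
  have hie : ∀ y ∈ A.powerset, ∀ z ∈ A.powerset, e y = e z → y = z := by
    intro y hy z hz h
    rw [Finset.mem_powerset] at hy hz
    ext X
    constructor
    · intro hX
      have h1 : X \ G ∈ e z := by rw [← h]; exact Finset.mem_image_of_mem _ hX
      obtain ⟨Y, hY, hYX⟩ := Finset.mem_image.1 h1
      rw [← hinj Y (hz hY) X (hy hX) hYX]
      exact hY
    · intro hX
      have h1 : X \ G ∈ e y := by rw [h]; exact Finset.mem_image_of_mem _ hX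
      obtain ⟨Y, hY, hYX⟩ := Finset.mem_image.1 h1
      rw [← hinj Y (hy hY) X (hz hX) hYX]
      exact hY
  have h0 : ∑ y ∈ A.powerset, SHEARP_f (g + k) x y =
      ∑ y ∈ A.powerset with IsPack (g + k) y, x ^ y.card := by
    rw [Finset.sum_filter]
    refine Finset.sum_congr rfl fun y _ => ?_
    unfold SHEARP_f
    congr
  rw [h0]
  calc ∑ y ∈ A.powerset with IsPack (g + k) y, x ^ y.card
      = ∑ y ∈ A.powerset with IsPack (g + k) y, x ^ (e y).card := by
        refine Finset.sum_congr rfl fun y hy => ?_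
        rw [hce y (Finset.mem_filter.1 hy).1]
    _ = ∑ P ∈ (A.powerset.filter (fun y => IsPack (g + k) y)).image e, x ^ P.card := by
        rw [Finset.sum_image]
        intro y hy z hz h
        exact hie y (Finset.mem_filter.1 hy).1 z (Finset.mem_filter.1 hz).1 h
    _ ≤ Zp k x ((Gᶜ).powersetCard (k + 2)) := by
        unfold Zp
        refine Finset.sum_le_sum_of_subset_of_nonneg ?_ fun P _ _ => by positivity
        intro P hP
        obtain ⟨y, hy, rfl⟩ := Finset.mem_image.1 hP
        obtain ⟨hyA, hyP⟩ := Finset.mem_filter.1 hy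
        rw [Finset.mem_powerset] at hyA
        rw [Finset.mem_filter, Finset.mem_powerset]
        constructor
        · intro Q hQ
          obtain ⟨X, hX, rfl⟩ := Finset.mem_image.1 hQ
          rw [Finset.mem_powersetCard]
          refine ⟨?_, hcard X (hyA hX)⟩
          intro z hz
          rw [Finset.mem_compl]
          exact (Finset.mem_sdiff.1 hz).2
        · intro Q hQ Q' hQ' hne
          obtain ⟨X, hX, rfl⟩ := Finset.mem_image.1 hQ
          obtain ⟨Y, hY, rfl⟩ := Finset.mem_image.1 hQ'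
          have hXY : X ≠ Y := fun h => hne (by rw [h])
          have h1 := hyP X hX Y hY hXY
          have h2 : (X \ G) ∩ (Y \ G) = (X ∩ Y) \ G := by
            ext z
            simp only [Finset.mem_inter, Finset.mem_sdiff]
            tauto
          have h3 : G ⊆ X ∩ Y := Finset.subset_inter (hA X (hyA hX)).1 (hA Y (hyA hY)).1
          show ((X \ G) ∩ (Y \ G)).card ≤ k
          rw [h2, Finset.card_sdiff_of_subset h3, hG]
          omega

theorem p_SHEARP : Stmt_SHEARP := by
  classical
  intro n g k x Z hx hgn hZ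
  set μ : ℕ := (g + k + 2).choose g with hμ
  have hμ1 : 1 ≤ μ := Nat.choose_pos (by omega)
  have hμ0 : (0 : ℝ) < μ := by exact_mod_cast hμ1
  set 𝒢 : Finset (Finset (Fin n)) := (Finset.univ : Finset (Fin n)).powersetCard g with h𝒢
  set U : Finset (Finset (Fin n)) := (Finset.univ : Finset (Fin n)).powersetCard (g + k + 2)
    with hU
  set R : Finset (Fin n) → Finset (Fin n) → Bool := fun G X => decide (G ⊆ X) with hR
  have hdeg : ∀ X ∈ U, (𝒢.filter (fun G => R G X)).card = μ := by
    intro X hX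
    have h1 : 𝒢.filter (fun G => R G X) = X.powersetCard g := by
      ext G
      simp only [hR, h𝒢, Finset.mem_filter, Finset.mem_powersetCard, Finset.subset_univ, true_and,
        decide_eq_true_eq]
      tauto
    rw [h1, Finset.card_powersetCard, (Finset.mem_powersetCard.1 hX).2]
  have hf0 : ∀ (G : Finset (Fin n)) (y : Finset (Finset (Fin n))),
      0 ≤ (fun _ : Finset (Fin n) => SHEARP_f (g + k) x) G y := fun G y => SHEARP_f_nonneg _ hx y
  have hF := Pool.Agent.Work.MP_f3d170_lin.p_FINNER Pool.Agent.Work.MP_f3d170_lin.p_HOL _ _ 𝒢 U R μ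
    (fun _ => SHEARP_f (g + k) x) hμ1 hdeg hf0
  simp only at hF hf0
  -- the right side
  have hfac : ∀ G ∈ 𝒢, ∑ y ∈ (U.filter (fun X => R G X)).powerset, SHEARP_f (g + k) x y ≤ Z := by
    intro G hG
    have hGc : G.card = g := (Finset.mem_powersetCard.1 hG).2
    refine (SHEARP_slice g k hx G hGc _ ?_).trans (hZ Gᶜ ?_)
    · intro X hX
      obtain ⟨h1, h2⟩ := Finset.mem_filter.1 hX
      exact ⟨of_decide_eq_true h2, (Finset.mem_powersetCard.1 h1).2⟩
    · rw [Finset.card_compl, Fintype.card_fin, hGc]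
  have hZ0 : 0 ≤ Z := by
    obtain ⟨G, hG⟩ : 𝒢.Nonempty := by
      rw [h𝒢, Finset.powersetCard_nonempty, Finset.card_univ, Fintype.card_fin]
      omega
    exact (Finset.sum_nonneg fun y _ => SHEARP_f_nonneg _ hx y).trans (hfac G hG)
  have hcardG : 𝒢.card = n.choose g := by
    rw [h𝒢, Finset.card_powersetCard, Finset.card_univ, Fintype.card_fin]
  have hRt : ∏ G ∈ 𝒢, (∑ y ∈ (U.filter (fun X => R G X)).powerset, SHEARP_f (g + k) x y) ^
      ((1 : ℝ) / μ) ≤ Z ^ ((n.choose g : ℝ) / μ) := by
    calc ∏ G ∈ 𝒢, (∑ y ∈ (U.filter (fun X => R G X)).powerset, SHEARP_f (g + k) x y) ^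
          ((1 : ℝ) / μ)
        ≤ ∏ _G ∈ 𝒢, Z ^ ((1 : ℝ) / μ) := by
          refine Finset.prod_le_prod (fun G _ => ?_) fun G hG => ?_
          · exact Real.rpow_nonneg (Finset.sum_nonneg fun y _ => SHEARP_f_nonneg _ hx y) _
          · exact Real.rpow_le_rpow (Finset.sum_nonneg fun y _ => SHEARP_f_nonneg _ hx y)
              (hfac G hG) (by positivity)
      _ = Z ^ ((n.choose g : ℝ) / μ) := by
          rw [Finset.prod_const, hcardG, ← Real.rpow_natCast, ← Real.rpow_mul hZ0]
          congr 1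
          ring
  refine le_trans ?_ (hF.trans hRt)
  -- the left side
  unfold Zp
  rw [Finset.sum_filter]
  refine Finset.sum_le_sum fun β hβ => ?_
  rw [Finset.mem_powerset] at hβ
  split_ifs with hP
  · have h2 : ∀ G ∈ 𝒢, SHEARP_f (g + k) x (β.filter (fun X => R G X)) ^ ((1 : ℝ) / μ) =
        x ^ (((β.filter (fun X => R G X)).card : ℝ) / (μ : ℝ)) := by
      intro G _
      have h3 : IsPack (g + k) (β.filter (fun X => R G X)) := fun X hX Y hY hne =>
        hP X (Finset.mem_filter.1 hX).1 Y (Finset.mem_filter.1 hY).1 hne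
      unfold SHEARP_f
      rw [if_pos h3, ← Real.rpow_natCast, ← Real.rpow_mul hx.le]
      congr 1
      ring
    rw [Finset.prod_congr rfl h2, ← Real.rpow_sum_of_pos hx, ← Finset.sum_div, ← Nat.cast_sum]
    have h4 : ∑ G ∈ 𝒢, (β.filter (fun X => R G X)).card = β.card * μ := by
      calc ∑ G ∈ 𝒢, (β.filter (fun X => R G X)).card
          = ∑ X ∈ β, (𝒢.filter (fun G => R G X)).card :=
            Finset.sum_card_bipartiteAbove_eq_sum_card_bipartiteBelow (fun G X => (R G X : Prop))
        _ = ∑ _X ∈ β, μ := Finset.sum_congr rfl fun X hX => hdeg X (hβ hX)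
        _ = β.card * μ := by rw [Finset.sum_const, smul_eq_mul]
    rw [h4, Nat.cast_mul, mul_div_assoc, div_self hμ0.ne', mul_one, Real.rpow_natCast]
  · exact Finset.prod_nonneg fun G _ => Real.rpow_nonneg (SHEARP_f_nonneg _ hx _) _

end Pool.Agent.Work.MP_f3d170_sp
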