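import Pool.Agent.Work.MP_f3d170_sp.Interface

/-!
# Block SPA: the structure of sparse paving matroids
-/

set_option autoImplicit false

open Set Matroid
open Pool.Agent.Work.MP_f3d170_co_h45
open Pool.Agent.Work.MP_f3d170_lin (IsPack Zp)

namespace Pool.Agent.Work.MP_f3d170_sp

section

variable {n k : ℕ} (M : RankMatroid n (k + 2))

theorem SPA_ncast (I : Set (Fin n)) : I.encard = (I.ncard : ℕ∞) :=
  (Set.Finite.cast_ncard_eq (Set.toFinite I)).symm

theorem SPA_base_card {B : Set (Fin n)} (hB : M.1.IsBase B) : B.ncard = k + 2 := by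
  have h := hB.encard_eq_eRank
  rw [M.2.2, SPA_ncast] at h
  exact_mod_cast h

theorem SPA_indep_card {I : Set (Fin n)} (hI : M.1.Indep I) : I.ncard ≤ k + 2 := by
  have h := hI.encard_le_eRank
  rw [M.2.2, SPA_ncast] at h
  exact_mod_cast h

theorem SPA_base_of {I : Set (Fin n)} (hI : M.1.Indep I) (h : I.ncard = k + 2) :
    M.1.IsBase I := by
  refine hI.isBase_of_eRk_ge (Set.toFinite _) ?_
  rw [M.2.2, hI.eRk_eq_encard, SPA_ncast, h]

theorem SPA_small (hS : SparsePaving M) {I : Set (Fin n)} (h : I.ncard ≤ k + 1) :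
    M.1.Indep I := by
  by_contra hI
  have hd : M.1.Dep I := ⟨hI, by rw [M.2.1]; exact subset_univ _⟩
  obtain ⟨C, hCI, hC⟩ := hd.exists_isCircuit_subset
  have h1 := hS.1 C hC
  have h2 := Set.ncard_le_ncard hCI (Set.toFinite I)
  omega

theorem SPA_big (hn : k + 2 < n) (hS : SparsePaving M) {J : Set (Fin n)} (h : k + 3 ≤ J.ncard) :
    ∃ B, M.1.IsBase B ∧ B ⊆ J := by
  have h1 : M.1✶.Indep Jᶜ := by
    by_contra hI
    have hd : M.1✶.Dep Jᶜ := ⟨hI, by rw [dual_ground, M.2.1]; exact subset_univ _⟩
    obtain ⟨C, hCI, hC⟩ := hd.exists_isCircuit_subset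
    have h1 := hS.2 C hC
    have h2 := Set.ncard_le_ncard hCI (Set.toFinite _)
    have h3 := Set.ncard_add_ncard_compl J
    rw [Nat.card_eq_fintype_card, Fintype.card_fin] at h3
    omega
  obtain ⟨_, B, hB, hd⟩ := dual_indep_iff_exists'.1 h1
  exact ⟨B, hB, fun x hx => by
    by_contra hxJ
    exact Set.disjoint_left.1 hd hxJ hx⟩

open Classical in
theorem SPA_mem_NB (X : Finset (Fin n)) :
    X ∈ NB M ↔ X.card = k + 2 ∧ ¬ M.1.IsBase (X : Set (Fin n)) := by
  unfold NB
  rw [Finset.mem_filter, Finset.mem_powersetCard]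
  simp

theorem SPA_pack (hn : k + 2 < n) (hS : SparsePaving M) : IsPack k (NB M) := by
  intro X hX Y hY hXY
  rw [SPA_mem_NB] at hX hY
  by_contra hcard
  rw [not_le] at hcard
  have hXsub : ¬ X ⊆ Y := fun h => hXY (Finset.eq_of_subset_of_card_le h (by omega))
  have hlt : (X ∩ Y).card < X.card := by
    refine Finset.card_lt_card (Finset.ssubset_iff_subset_ne.2 ⟨Finset.inter_subset_left, ?_⟩)
    intro h
    exact hXsub (Finset.inter_eq_left.1 h)
  have hi : (X ∩ Y).card = k + 1 := by omega
  have hu : (X ∪ Y).card = k + 3 := by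
    have := Finset.card_union_add_card_inter X Y
    omega
  obtain ⟨B, hB, hBs⟩ := SPA_big M hn hS (J := ((X ∪ Y : Finset (Fin n)) : Set (Fin n)))
    (by rw [Set.ncard_coe_finset]; omega)
  have hI : M.1.Indep ((X ∩ Y : Finset (Fin n)) : Set (Fin n)) :=
    SPA_small M hS (by rw [Set.ncard_coe_finset]; omega)
  have hI' : ¬ M.1.IsBase ((X ∩ Y : Finset (Fin n)) : Set (Fin n)) := by
    intro h
    have := SPA_base_card M h
    rw [Set.ncard_coe_finset] at this
    omega
  obtain ⟨e, he, hins⟩ := hI.exists_insert_of_not_isBase hI' hB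
  have heU : e ∈ X ∪ Y := by exact_mod_cast hBs he.1
  have heI : e ∉ X ∩ Y := by exact_mod_cast he.2
  have hcard2 : (insert e (X ∩ Y)).card = k + 2 := by rw [Finset.card_insert_of_notMem heI, hi]
  have hbase : M.1.IsBase ((insert e (X ∩ Y) : Finset (Fin n)) : Set (Fin n)) := by
    refine SPA_base_of M ?_ (by rw [Set.ncard_coe_finset, hcard2])
    rw [Finset.coe_insert]
    exact hins
  rcases Finset.mem_union.1 heU with h | h
  · have h1 : insert e (X ∩ Y) = X := Finset.eq_of_subset_of_card_le
      (Finset.insert_subset h Finset.inter_subset_left) (by omega)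
    rw [h1] at hbase
    exact hX.2 hbase
  · have h1 : insert e (X ∩ Y) = Y := Finset.eq_of_subset_of_card_le
      (Finset.insert_subset h Finset.inter_subset_right) (by omega)
    rw [h1] at hbase
    exact hY.2 hbase

open Classical in
theorem SPA_bases : numBases M.1 + (NB M).card = n.choose (k + 2) := by
  have h1 : {B | M.1.IsBase B} = (fun X : Finset (Fin n) => (X : Set (Fin n))) ''
      ((((Finset.univ : Finset (Fin n)).powersetCard (k + 2)).filter
        (fun X : Finset (Fin n) => M.1.IsBase (X : Set (Fin n))) : Finset (Finset (Fin n))) :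
        Set (Finset (Fin n))) := by
    ext B
    simp only [Set.mem_setOf_eq, Set.mem_image, Finset.mem_coe, Finset.mem_filter,
      Finset.mem_powersetCard, Finset.subset_univ, true_and]
    constructor
    · intro hB
      refine ⟨B.toFinset, ⟨?_, ?_⟩, Set.coe_toFinset B⟩
      · rw [← Set.ncard_eq_toFinset_card']
        exact SPA_base_card M hB
      · rw [Set.coe_toFinset]; exact hB
    · rintro ⟨X, ⟨_, hX⟩, rfl⟩
      exact hX
  have h2 : numBases M.1 = (((Finset.univ : Finset (Fin n)).powersetCard (k + 2)).filter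
      (fun X : Finset (Fin n) => M.1.IsBase (X : Set (Fin n)))).card := by
    unfold numBases
    rw [h1, Set.ncard_image_of_injective _ Finset.coe_injective, Set.ncard_coe_finset]
  rw [h2]
  unfold NB
  have h3 := Finset.card_filter_add_card_filter_not
    (s := (Finset.univ : Finset (Fin n)).powersetCard (k + 2))
    (p := fun X : Finset (Fin n) => M.1.IsBase (X : Set (Fin n)))
  rw [Finset.card_powersetCard, Finset.card_univ, Fintype.card_fin] at h3
  exact h3

/-- The circuits with `r` elements. -/
theorem SPA_circ (hS : SparsePaving M) (X : Finset (Fin n)) (hX : X.card = k + 2) :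
    M.1.IsCircuit (X : Set (Fin n)) ↔ X ∈ NB M := by
  rw [SPA_mem_NB]
  constructor
  · intro h
    exact ⟨hX, fun hB => h.not_indep hB.indep⟩
  · rintro ⟨_, hB⟩
    have hni : ¬ M.1.Indep (X : Set (Fin n)) := fun hI =>
      hB (SPA_base_of M hI (by rw [Set.ncard_coe_finset, hX]))
    rw [isCircuit_iff_forall_ssubset]
    refine ⟨⟨hni, by rw [M.2.1]; exact subset_univ _⟩, fun I hI => SPA_small M hS ?_⟩
    have := Set.ncard_lt_ncard hI (Set.toFinite _)
    rw [Set.ncard_coe_finset, hX] at this
    omega

/-- The circuits with `r + 1` elements. -/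
theorem SPA_circ' (Z : Finset (Fin n)) (hZ : Z.card = k + 3) :
    M.1.IsCircuit (Z : Set (Fin n)) ↔ ¬ ∃ X ∈ NB M, X ⊆ Z := by
  constructor
  · rintro h ⟨X, hX, hXZ⟩
    rw [SPA_mem_NB] at hX
    apply hX.2
    refine SPA_base_of M (h.ssubset_indep ?_) (by rw [Set.ncard_coe_finset, hX.1])
    rw [Finset.coe_ssubset]
    refine Finset.ssubset_iff_subset_ne.2 ⟨hXZ, ?_⟩
    rintro rfl
    omega
  · intro h
    rw [isCircuit_iff_forall_ssubset]
    refine ⟨⟨fun hI => ?_, by rw [M.2.1]; exact subset_univ _⟩, fun I hI => ?_⟩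
    · have := SPA_indep_card M hI
      rw [Set.ncard_coe_finset] at this
      omega
    · -- a proper subset lies in `Z` without a point
      obtain ⟨e, heZ, heI⟩ := Set.exists_of_ssubset hI
      have hsub : I ⊆ ((Z.erase e : Finset (Fin n)) : Set (Fin n)) := by
        intro x hx
        rw [Finset.mem_coe, Finset.mem_erase]
        exact ⟨fun hxe => heI (hxe ▸ hx), by exact_mod_cast hI.1 hx⟩
      have heZ' : e ∈ Z := by exact_mod_cast heZ
      have hc : (Z.erase e).card = k + 2 := by rw [Finset.card_erase_of_mem heZ', hZ]; rfl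
      have hb : M.1.IsBase ((Z.erase e : Finset (Fin n)) : Set (Fin n)) := by
        by_contra hnb
        exact h ⟨Z.erase e, (SPA_mem_NB M _).2 ⟨hc, hnb⟩, Finset.erase_subset _ _⟩
      exact hb.indep.subset hsub

open Classical in
theorem SPA_circuits (hS : SparsePaving M) : numCircuits M.1 = (NB M).card +
    (((Finset.univ : Finset (Fin n)).powersetCard (k + 3)).filter
      (fun Z => ¬ ∃ X ∈ NB M, X ⊆ Z)).card := by
  have hdisj : Disjoint (NB M) (((Finset.univ : Finset (Fin n)).powersetCard (k + 3)).filter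
      (fun Z => ¬ ∃ X ∈ NB M, X ⊆ Z)) := by
    rw [Finset.disjoint_left]
    intro X hX hX'
    rw [SPA_mem_NB] at hX
    rw [Finset.mem_filter, Finset.mem_powersetCard] at hX'
    omega
  rw [← Finset.card_union_of_disjoint hdisj]
  have h1 : {C | M.1.IsCircuit C} = (fun X : Finset (Fin n) => (X : Set (Fin n))) ''
      ((NB M ∪ ((Finset.univ : Finset (Fin n)).powersetCard (k + 3)).filter
      (fun Z => ¬ ∃ X ∈ NB M, X ⊆ Z) : Finset (Finset (Fin n))) : Set (Finset (Fin n))) := by
    ext C
    simp only [Set.mem_setOf_eq, Set.mem_image, Finset.mem_coe, Finset.mem_union,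
      Finset.mem_filter, Finset.mem_powersetCard, Finset.subset_univ, true_and]
    constructor
    · intro hC
      have e1 := hS.1 C hC
      obtain ⟨x, hx⟩ := hC.nonempty
      have e2 := SPA_indep_card M (hC.sdiff_singleton_indep hx)
      have e3 := Set.ncard_diff_singleton_add_one hx (Set.toFinite C)
      have hcc : (C.toFinset : Finset (Fin n)).card = C.ncard :=
        (Set.ncard_eq_toFinset_card' C).symm
      have hco : ((C.toFinset : Finset (Fin n)) : Set (Fin n)) = C := Set.coe_toFinset C
      refine ⟨C.toFinset, ?_, hco⟩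
      rcases Nat.lt_or_ge C.ncard (k + 3) with h | h
      · left
        rw [← SPA_circ M hS _ (by omega), hco]
        exact hC
      · right
        refine ⟨by omega, ?_⟩
        rw [← SPA_circ' M _ (by omega), hco]
        exact hC
    · rintro ⟨X, hX | ⟨hX1, hX2⟩, rfl⟩
      · exact (SPA_circ M hS X ((SPA_mem_NB M X).1 hX).1).2 hX
      · exact (SPA_circ' M X hX1).2 hX2
  unfold numCircuits
  rw [h1, Set.ncard_image_of_injective _ Finset.coe_injective, Set.ncard_coe_finset]

open Classical in
theorem SPA_cover (hP : IsPack k (NB M)) :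
    (((Finset.univ : Finset (Fin n)).powersetCard (k + 3)).filter
      (fun Z => ∃ X ∈ NB M, X ⊆ Z)).card = (n - (k + 2)) * (NB M).card := by
  have h1 : ((Finset.univ : Finset (Fin n)).powersetCard (k + 3)).filter
      (fun Z => ∃ X ∈ NB M, X ⊆ Z) =
      (NB M).biUnion (fun X => (Finset.univ \ X).image (fun e => insert e X)) := by
    ext Z
    rw [Finset.mem_filter, Finset.mem_powersetCard, Finset.mem_biUnion]
    constructor
    · rintro ⟨⟨_, hZ⟩, X, hX, hXZ⟩
      refine ⟨X, hX, ?_⟩
      have hXc := ((SPA_mem_NB M X).1 hX).1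
      have hd : (Z \ X).card = 1 := by
        rw [Finset.card_sdiff_of_subset hXZ]; omega
      obtain ⟨e, he⟩ := Finset.card_eq_one.1 hd
      rw [Finset.mem_image]
      have heZ : e ∈ Z \ X := by rw [he]; exact Finset.mem_singleton_self e
      rw [Finset.mem_sdiff] at heZ
      refine ⟨e, Finset.mem_sdiff.2 ⟨Finset.mem_univ _, heZ.2⟩, ?_⟩
      rw [Finset.insert_eq, ← he, Finset.sdiff_union_of_subset hXZ]
    · rintro ⟨X, hX, hZ⟩
      rw [Finset.mem_image] at hZ
      obtain ⟨e, he, rfl⟩ := hZ
      have hXc := ((SPA_mem_NB M X).1 hX).1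
      rw [Finset.mem_sdiff] at he
      refine ⟨⟨Finset.subset_univ _, ?_⟩, X, hX, Finset.subset_insert _ _⟩
      rw [Finset.card_insert_of_notMem he.2, hXc]
  rw [h1, Finset.card_biUnion]
  · have h2 : ∀ X ∈ NB M, ((Finset.univ \ X).image (fun e => insert e X)).card =
        n - (k + 2) := by
      intro X hX
      have hXc := ((SPA_mem_NB M X).1 hX).1
      rw [Finset.card_image_of_injOn, Finset.card_sdiff_of_subset (Finset.subset_univ _),
        Finset.card_univ, Fintype.card_fin, hXc]
      intro e he e' he' hee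
      rw [Finset.mem_coe, Finset.mem_sdiff] at he he'
      have h3 : e ∈ insert e' X := by
        have : e ∈ insert e X := Finset.mem_insert_self _ _
        simp only at hee
        rwa [hee] at this
      rcases Finset.mem_insert.1 h3 with h | h
      · exact h
      · exact absurd h he.2
    rw [Finset.sum_congr rfl h2, Finset.sum_const, smul_eq_mul, mul_comm]
  · intro X hX Y hY hXY
    rw [Function.onFun, Finset.disjoint_left]
    intro Z hZ hZ'
    rw [Finset.mem_image] at hZ hZ'
    obtain ⟨e, he, rfl⟩ := hZ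
    obtain ⟨e', he', hee⟩ := hZ'
    have hXc := ((SPA_mem_NB M X).1 hX).1
    have hYc := ((SPA_mem_NB M Y).1 hY).1
    rw [Finset.mem_sdiff] at he
    have h4 := hP X hX Y hY hXY
    have h5 : X ∪ Y ⊆ insert e X := by
      refine Finset.union_subset (Finset.subset_insert _ _) ?_
      rw [← hee]
      exact Finset.subset_insert _ _
    have h6 := Finset.card_le_card h5
    rw [Finset.card_insert_of_notMem he.2] at h6
    have h7 := Finset.card_union_add_card_inter X Y
    omega

end

open Classical in
theorem p_SPA : Stmt_SPA := by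
  intro n k M hn hS
  have hP := SPA_pack M hn hS
  refine ⟨hP, SPA_bases M, ?_⟩
  rw [SPA_circuits M hS, ← SPA_cover M hP]
  have h3 := Finset.card_filter_add_card_filter_not
    (s := (Finset.univ : Finset (Fin n)).powersetCard (k + 3))
    (p := fun Z => ∃ X ∈ NB M, X ⊆ Z)
  rw [Finset.card_powersetCard, Finset.card_univ, Fintype.card_fin] at h3
  omega

end Pool.Agent.Work.MP_f3d170_sp
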