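import Pool.Agent.Work.MP_f3d170_sp.Interface

/-! # SPK: packings of small rank -/

set_option autoImplicit false

open Set Matroid
open Pool.Agent.Work.MP_f3d170_co_h45
open Pool.Agent.Work.MP_f3d170_lin (IsPack Zp)

namespace Pool.Agent.Work.MP_f3d170_sp

theorem p_SPK (h1 : Stmt_PRECX) (h2 : Stmt_PHIAX) (h3 : Stmt_PHIBX) : Stmt_SPK := by
  intro x ε hx hx6 hε hε1
  obtain ⟨k₁, hk₁⟩ := h3 x ε hx hx6 hε hε1
  refine ⟨k₁, fun k r n hk hr1 hr2 D hD => ?_⟩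
  obtain ⟨K, κ, δ, g1, g2, g3, g4, g5, g6, g7, g8, g9, g10⟩ := hk₁ k r hk hr1 hr2
  have hr0 : 0 < r := lt_of_lt_of_le (by positivity) hr1
  have hr : (1 : ℝ) < (r : ℝ) + 1 := by
    have : (0 : ℝ) < r := by exact_mod_cast hr0
    linarith
  have hK : 0 ≤ K := by linarith
  obtain ⟨Φ, e1, e2, e3⟩ := h2 x K κ ((r : ℝ) + 1) δ ((r + k + 2).choose (k + 2)) hx g1 g2 hr
    g3 g4 g5 g6 g7 g8
  have h4 := h1 n k ⌊K⌋₊ x D Φ hx (fun i hi => e1 i ((Nat.le_floor_iff hK).1 hi))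
    (fun i d hi hiN hd hdd => e2 i d ((Nat.floor_lt hK).1 hi) (by rw [← hD]; exact hiN) hd
      ((g9 i ((Nat.floor_lt hK).1 hi)).trans (by rw [← hD]; exact hdd)))
  rw [hD] at h4
  exact h4.trans (e3.trans g10)

end Pool.Agent.Work.MP_f3d170_sp
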