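import Pool.Agent.Work.MP_f3d170_sp.Interface
import Pool.Agent.Work.MP_f3d170_co_h78.B_LOWER

set_option autoImplicit false

open Set Matroid
open Pool.Agent.Work.MP_f3d170_co_h45
open Pool.Agent.Work.MP_f3d170_co_helper60
open Pool.Agent.Work.MP_f3d170_co_helper60b

namespace Pool.Agent.Work.MP_f3d170_sp

theorem SPN_one {n r : ℕ} {𝒟 : Set (Set (Fin n))} (hr : 1 ≤ r) (hrn : r < n) (h : Stable 𝒟)
    (C : Set (Fin n)) (hC : C.ncard < r) : ∃ B, (SP hr hrn h).IsBase B ∧ C ⊆ B := by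
  obtain ⟨A, hCA, -, hA⟩ := Set.exists_subsuperset_card_eq (s := C) (t := (Set.univ : Set (Fin n)))
    (n := r - 1) (Set.subset_univ _) (by omega) (by rw [Set.ncard_univ, Nat.card_fin]; omega)
  have hcompl : (Aᶜ).ncard = n - (r - 1) := by
    rw [Set.ncard_compl, Nat.card_fin, hA]
  have h2 : 1 < (Aᶜ).ncard := by omega
  obtain ⟨b, hb, b', hb', hne⟩ := (Set.one_lt_ncard (Set.toFinite _)).1 h2
  have hcard : ∀ x, x ∉ A → (insert x A).ncard = r := by
    intro x hx
    rw [Set.ncard_insert_of_notMem hx (Set.toFinite _), hA]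
    omega
  by_cases h3 : insert b A ∈ 𝒟
  · by_cases h4 : insert b' A ∈ 𝒟
    · exfalso
      have h5 := h _ h3 _ h4 b (by
        rintro x ⟨hx1, hx2⟩
        rcases hx1 with hx1 | hx1
        · exact hx1
        · exact absurd (Set.mem_insert_of_mem _ hx1) hx2)
      have h6 : b ∈ insert b' A := h5 ▸ Set.mem_insert b A
      rcases h6 with h6 | h6
      · exact hne h6
      · exact hb h6
    · exact ⟨insert b' A, (SP_isBase hr hrn h _).2 ⟨hcard b' hb', h4⟩, hCA.trans (Set.subset_insert _ _)⟩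
  · exact ⟨insert b A, (SP_isBase hr hrn h _).2 ⟨hcard b hb, h3⟩, hCA.trans (Set.subset_insert _ _)⟩

theorem SPN_two {n r : ℕ} {𝒟 : Set (Set (Fin n))} (hr : 1 ≤ r) (hrn : r < n) (h : Stable 𝒟)
    (C : Set (Fin n)) (hC : C.ncard < n - r) : ∃ B, (SP hr hrn h).IsBase B ∧ B ⊆ Cᶜ := by
  have hcompl : (Cᶜ).ncard = n - C.ncard := by
    rw [Set.ncard_compl, Nat.card_fin]
  obtain ⟨A, hAC, hA⟩ := Set.exists_subset_card_eq (s := Cᶜ) (n := r + 1) (by omega)
  obtain ⟨b, hb, b', hb', hne⟩ := (Set.one_lt_ncard (Set.toFinite A)).1 (by omega)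
  have hcard : ∀ x, x ∈ A → (A \ {x}).ncard = r := by
    intro x hx
    rw [Set.ncard_sdiff_singleton_of_mem hx, hA]
    omega
  by_cases h3 : A \ {b} ∈ 𝒟
  · by_cases h4 : A \ {b'} ∈ 𝒟
    · exfalso
      have h5 := h _ h3 _ h4 b' (by
        rintro x ⟨hx1, hx2⟩
        by_contra hxb
        exact hx2 ⟨hx1.1, hxb⟩)
      have h6 : b' ∈ A \ {b} := ⟨hb', fun h => hne h.symm⟩
      rw [h5] at h6
      exact h6.2 rfl
    · exact ⟨A \ {b'}, (SP_isBase hr hrn h _).2 ⟨hcard b' hb', h4⟩, Set.sdiff_subset.trans hAC⟩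
  · exact ⟨A \ {b}, (SP_isBase hr hrn h _).2 ⟨hcard b hb, h3⟩, Set.sdiff_subset.trans hAC⟩

theorem SPN_sparse {n r : ℕ} {𝒟 : Set (Set (Fin n))} (hr : 1 ≤ r) (hrn : r < n) (h : Stable 𝒟) :
    SparsePaving (⟨SP hr hrn h, rfl, SP_eRank hr hrn h⟩ : RankMatroid n r) := by
  constructor
  · intro C hC
    by_contra hc
    push Not at hc
    obtain ⟨B, hB, hCB⟩ := SPN_one hr hrn h C hc
    exact hC.dep.not_indep (hB.indep.subset hCB)
  · intro C hC
    by_contra hc
    push Not at hc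
    obtain ⟨B, hB, hBC⟩ := SPN_two hr hrn h C hc
    have h1 := hB.compl_isBase_dual
    refine hC.dep.not_indep (h1.indep.subset ?_)
    intro x hx
    refine ⟨Set.mem_univ x, fun hxB => hBC hxB hx⟩

theorem p_SPN : Stmt_SPN := by
  classical
  intro n k hj
  set g := n.choose (k + 2) / n with hg
  have hn : 0 < n := by omega
  obtain ⟨ι, hinj, hmem, hst⟩ := exists_stable (n := n) (s := k + 1) hn
    (𝒳 := {X : Set (Fin n) | X.ncard = k + 2}) (fun X hX => hX) (g := g) (by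
      rw [Pool.Agent.Work.MP_f3d170_co_h78.LOWER_ncard]
      exact Nat.mul_div_le _ _)
  have hcard : ∀ k', (ι k').ncard = k + 2 := fun k' => hmem k'
  have hstab : ∀ S : Set (Fin g), Stable (ι '' S) := by
    rintro S _ ⟨k1, -, rfl⟩ _ ⟨l, -, rfl⟩ b hb
    apply hst
    have h1 : (ι k1 \ ι l).ncard ≤ 1 := by
      calc (ι k1 \ ι l).ncard ≤ ({b} : Set (Fin n)).ncard := Set.ncard_le_ncard hb (Set.toFinite _)
        _ = 1 := Set.ncard_singleton b
    have h2 := Set.ncard_inter_add_ncard_sdiff_eq_ncard (ι k1) (ι l) (Set.toFinite _)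
    rw [hcard k1] at h2
    omega
  set Φ : Set (Fin g) → {M : RankMatroid n (k + 2) // SparsePaving M} := fun S =>
    ⟨⟨SP (by omega) hj (hstab S), rfl, SP_eRank (by omega) hj (hstab S)⟩,
      SPN_sparse (by omega) hj (hstab S)⟩ with hΦ
  have hΦinj : Function.Injective Φ := by
    intro S S' hSS
    have h1 : SP (by omega) hj (hstab S) = SP (by omega) hj (hstab S') :=
      congrArg (fun M => M.1.1) hSS
    have h2 : ∀ B : Set (Fin n), (B.ncard = k + 2 ∧ B ∉ ι '' S) ↔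
        (B.ncard = k + 2 ∧ B ∉ ι '' S') := by
      intro B
      rw [← SP_isBase (by omega) hj (hstab S) B, ← SP_isBase (by omega) hj (hstab S') B, h1]
    ext k1
    have h3 := h2 (ι k1)
    rw [hinj.mem_set_image, hinj.mem_set_image] at h3
    have h4 := hcard k1
    tauto
  calc 2 ^ g = Nat.card (Set (Fin g)) := by
        rw [Nat.card_eq_fintype_card, Fintype.card_set, Fintype.card_fin]
    _ ≤ Nat.card {M : RankMatroid n (k + 2) // SparsePaving M} :=
        Nat.card_le_card_of_injective Φ hΦinj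

end Pool.Agent.Work.MP_f3d170_sp
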