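import Pool.Agent.Work.MP_f3d170_sp.B_FINS

set_option autoImplicit false

open Set Matroid
open Pool.Agent.Work.MP_f3d170_co_h45
open Pool.Agent.Work.MP_f3d170_lin (IsPack Zp)

namespace Pool.Agent.Work.MP_f3d170_sp

/-- the numbers: `(k+3) C(n,k+3) = (n-(k+2)) C(n,k+2)`. -/
lemma UPR_choose (n k : ℕ) : n.choose (k + 3) * (k + 3) = n.choose (k + 2) * (n - (k + 2)) :=
  Nat.choose_succ_right_eq n (k + 2)

lemma UPR_exists (hSPN : Stmt_SPN) (n k : ℕ) (hk : k + 2 < n) (𝒩 : Finset (RankMatroid n (k + 2)))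
    (h : IsTransversal 𝒩) : ∃ M ∈ 𝒩, SparsePaving M := by
  have h1 := hSPN n k hk
  have h2 : 0 < Nat.card {M : RankMatroid n (k + 2) // SparsePaving M} :=
    lt_of_lt_of_le (Nat.two_pow_pos _) h1
  obtain ⟨⟨⟨M, hM⟩⟩, -⟩ := Nat.card_pos_iff.1 h2
  obtain ⟨N, ⟨hN, hi⟩, -⟩ := h M
  exact ⟨N, hN, SparsePaving.of_iso hi hM⟩

theorem p_UPR (hSPA : Stmt_SPA) (hSPN : Stmt_SPN) (hPKB : Stmt_PKB) : Stmt_UPR := by
  classical
  intro n r 𝒩 h𝒩 hr hn
  obtain ⟨k, rfl⟩ : ∃ k, r = k + 2 := ⟨r - 2, by omega⟩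
  obtain ⟨M₀, hM₀, hs₀⟩ := UPR_exists hSPN n k (by omega) 𝒩 h𝒩
  apply Finset.sum_lt_sum_of_nonempty ⟨M₀, Finset.mem_filter.2 ⟨hM₀, hs₀⟩⟩
  intro M hM
  have hsp := (Finset.mem_filter.1 hM).2
  obtain ⟨hpk, hb, hc⟩ := hSPA n k M (by omega) hsp
  have hsub : NB M ⊆ (Finset.univ : Finset (Fin n)).powersetCard (k + 2) := by
    unfold NB
    exact Finset.filter_subset _ _
  have hP := hPKB n k (NB M) (by omega) hsub hpk
  have hch := UPR_choose n k
  have hpos : 0 < n.choose (k + 2) := Nat.choose_pos (by omega)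
  obtain ⟨s, hs⟩ : ∃ s, n = (k + 2) + s := ⟨n - (k + 2), by omega⟩
  have hs' : n - (k + 2) = s := by omega
  rw [hs'] at hP hc hch
  set N := n.choose (k + 2)
  set N' := n.choose (k + 3)
  set p := (NB M).card
  set b := numBases M.1
  set c := numCircuits M.1
  by_contra hlt
  push Not at hlt
  -- `c ≤ b`
  have hs2 : 2 * (k + 2) + 2 ≤ s := by omega
  have f1 : (c : ℤ) + s * p = N' + p := by exact_mod_cast hc
  have f2 : (b : ℤ) + p = N := by exact_mod_cast hb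
  have f3 : (N' : ℤ) * (k + 3) = N * s := by exact_mod_cast hch
  have f4 : (p : ℤ) * (s + 1) ≤ N := by exact_mod_cast hP
  have f5 : (c : ℤ) ≤ b := by exact_mod_cast hlt
  have f6 : (2 : ℤ) * (k + 2) + 2 ≤ s := by exact_mod_cast hs2
  have f7 : (1 : ℤ) ≤ N := by exact_mod_cast hpos
  have f8 : (0 : ℤ) ≤ p := Int.natCast_nonneg _
  have f9 : (0 : ℤ) ≤ k := Int.natCast_nonneg _
  have e1 : (N : ℤ) * s + 2 * ((k + 3) * p) ≤ (k + 3) * N + (k + 3) * (s * p) := by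
    have h1 : ((k : ℤ) + 3) * c ≤ (k + 3) * b := mul_le_mul_of_nonneg_left f5 (by linarith)
    have h2 : ((k : ℤ) + 3) * c + (k + 3) * (s * p) = N * s + (k + 3) * p := by
      linear_combination (k + 3) * f1 + f3
    have h3 : ((k : ℤ) + 3) * b + (k + 3) * p = (k + 3) * N := by
      linear_combination (k + 3) * f2
    linarith
  have e2 : ((k : ℤ) + 3) * (s * p) + (k + 3) * p ≤ (k + 3) * N := by
    have h1 : ((k : ℤ) + 3) * (p * (s + 1)) ≤ (k + 3) * N :=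
      mul_le_mul_of_nonneg_left f4 (by linarith)
    linarith
  have e3 : (2 : ℤ) * ((k + 3) * N) ≤ N * s := by
    have h1 : (N : ℤ) * (2 * (k + 2) + 2) ≤ N * s := mul_le_mul_of_nonneg_left f6 (by linarith)
    linarith
  have e4 : ((k : ℤ) + 3) * p ≤ 0 := by linarith
  have e5 : (p : ℤ) = 0 := by
    by_contra hne
    have h1 : (1 : ℤ) ≤ p := by omega
    have h2 : (0 : ℤ) < (k + 3) * p := by positivity
    linarith
  rw [e5] at e1
  have e6 : (0 : ℤ) < (k + 3) * N := by positivity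
  linarith

end Pool.Agent.Work.MP_f3d170_sp
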