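import Mathlib
import Pool.Agent.Work.MP_f3d170_sp.Assembly
import Pool.Agent.Work.MP_f3d170_sp.B_BLOW
import Pool.Agent.Work.MP_f3d170_sp.B_BUP
import Pool.Agent.Work.MP_f3d170_sp.B_CNT
import Pool.Agent.Work.MP_f3d170_sp.B_FINS
import Pool.Agent.Work.MP_f3d170_sp.B_GF
import Pool.Agent.Work.MP_f3d170_sp.B_LOWR
import Pool.Agent.Work.MP_f3d170_sp.B_NUMS
import Pool.Agent.Work.MP_f3d170_sp.B_PHIAX
import Pool.Agent.Work.MP_f3d170_sp.B_PHIBX
import Pool.Agent.Work.MP_f3d170_sp.B_PKB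
import Pool.Agent.Work.MP_f3d170_sp.B_PRECX
import Pool.Agent.Work.MP_f3d170_sp.B_SHEARP
import Pool.Agent.Work.MP_f3d170_sp.B_SPA
import Pool.Agent.Work.MP_f3d170_sp.B_SPK
import Pool.Agent.Work.MP_f3d170_sp.B_SPN
import Pool.Agent.Work.MP_f3d170_sp.B_UPR

/-! All blocks for MP_f3d170_co, sparse paving matroids (note 2991). -/

set_option autoImplicit false

open Set Matroid
open Pool.Agent.Work.MP_f3d170_co_h45

namespace Pool.Agent.Work.MP_f3d170_sp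

open Classical in
theorem all_main : ∃ r₀ : ℕ, ∀ r n : ℕ, r₀ ≤ r → r ≤ n →
    ∀ 𝒩 : Finset (RankMatroid n r), IsTransversal 𝒩 →
      (100 * n ≤ 211 * r → ∑ M ∈ 𝒩 with SparsePaving M, numCircuits M.1 <
        ∑ M ∈ 𝒩 with SparsePaving M, numBases M.1) ∧
      (285 * r ≤ 100 * n → ∑ M ∈ 𝒩 with SparsePaving M, numBases M.1 <
        ∑ M ∈ 𝒩 with SparsePaving M, numCircuits M.1) := by
  have hSPK := p_SPK p_PRECX p_PHIAX p_PHIBX
  have hGF := p_GF hSPK p_SHEARP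
  have hCNT := p_CNT p_SPA
  exact final_main p_SPN (p_BLOW p_SPA hCNT hGF) (p_BUP p_SPA hCNT hGF) p_NUMS p_FINS
    (p_LOWR p_SPA p_SPN) (p_UPR p_SPA p_SPN p_PKB)

end Pool.Agent.Work.MP_f3d170_sp
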