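import Pool.Agent.Work.MP_f3d170_sp.Interface

/-! # PKB: the packing bound -/

set_option autoImplicit false

open Set Matroid
open Pool.Agent.Work.MP_f3d170_co_h45
open Pool.Agent.Work.MP_f3d170_lin (IsPack Zp)

namespace Pool.Agent.Work.MP_f3d170_sp

theorem p_PKB : Stmt_PKB := by
  classical
  intro n k P hkn hP hpack
  have h1 : (P.biUnion fun X => X.powersetCard (k + 1)).card = P.card * (k + 2) := by
    rw [Finset.card_biUnion]
    · rw [Finset.sum_congr rfl (g := fun _ => k + 2), Finset.sum_const, smul_eq_mul]
      intro X hX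
      rw [Finset.card_powersetCard, (Finset.mem_powersetCard.1 (hP hX)).2]
      exact Nat.choose_succ_self_right (k + 1)
    · intro X hX Y hY hne
      rw [Function.onFun, Finset.disjoint_left]
      intro S hS hS'
      rw [Finset.mem_powersetCard] at hS hS'
      have h2 : S ⊆ X ∩ Y := Finset.subset_inter hS.1 hS'.1
      have h3 := Finset.card_le_card h2
      have h4 := hpack X hX Y hY hne
      omega
  have h2 : (P.biUnion fun X => X.powersetCard (k + 1)) ⊆
      (Finset.univ : Finset (Fin n)).powersetCard (k + 1) := by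
    intro S hS
    obtain ⟨X, _, hX⟩ := Finset.mem_biUnion.1 hS
    rw [Finset.mem_powersetCard] at hX ⊢
    exact ⟨Finset.subset_univ _, hX.2⟩
  have h3 := Finset.card_le_card h2
  rw [h1, Finset.card_powersetCard, Finset.card_univ, Fintype.card_fin] at h3
  have h4 := Nat.choose_succ_right_eq n (k + 1)
  have h5 : n - (k + 2) + 1 = n - (k + 1) := by omega
  rw [h5]
  refine Nat.le_of_mul_le_mul_right (c := k + 2) ?_ (by omega)
  calc P.card * (n - (k + 1)) * (k + 2) = P.card * (k + 2) * (n - (k + 1)) := by ring
    _ ≤ n.choose (k + 1) * (n - (k + 1)) := Nat.mul_le_mul_right _ h3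
    _ = n.choose (k + 2) * (k + 2) := h4.symm

end Pool.Agent.Work.MP_f3d170_sp
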